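import Pool.Agent.NUF.Cyl.Fin
import Pool.Agent.NUG.Ring

/-!
# The arcs of the ring are bounded by 1 / cos (3 pi / 8) (helper93)
-/

set_option autoImplicit false

namespace Pool.Agent.NUF.Cyl

open Pool.Agent.EXL Pool.Agent.EXL.Net Pat HexObs HexObs.LP

/-! ### support -/

section supp

variable {α K : Type*} [DecidableEq α] [CommRing K]

/-- the state is empty outside S. -/
def ES (S : Set α) (q : Pat α) : Prop := ∀ b, b ∉ S → q b = b

theorem ES.cup {S : Set α} {q : Pat α} (h : ES S q) {i j : α} (hi : i ∈ S) (hj : j ∈ S) : ES S (cup i j q) := by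
  intro b hb
  have h1 := h b hb
  have h2 : b ≠ i := fun e => hb (e ▸ hi)
  have h3 : b ≠ j := fun e => hb (e ▸ hj)
  simp only [Pat.cup]
  grind

theorem ES.cut {S : Set α} {q : Pat α} (h : ES S q) {i j : α} (hi : i ∈ S) (hj : j ∈ S) : ES S (cut i j q) := by
  intro b hb
  have h1 := h b hb
  have h2 : b ≠ i := fun e => hb (e ▸ hi)
  have h3 : b ≠ j := fun e => hb (e ▸ hj)
  have i1 := q.inv i
  have i2 := q.inv j
  simp only [Pat.cut]
  grind

theorem ES.swap {S : Set α} {q : Pat α} (h : ES S q) {i j : α} (hi : i ∈ S) (hj : j ∈ S) : ES S (swap i j q) := by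
  intro b hb
  have h1 := h b hb
  have h2 : b ≠ i := fun e => hb (e ▸ hi)
  have h3 : b ≠ j := fun e => hb (e ▸ hj)
  show Equiv.swap i j (q (Equiv.swap i j b)) = b
  rw [Equiv.swap_apply_of_ne_of_ne h2 h3, h1, Equiv.swap_apply_of_ne_of_ne h2 h3]

theorem pres_R_ES (w : Wt K) {S : Set α} {i j : α} (hi : i ∈ S) (hj : j ∈ S) : HS.Pres (ES S) (ES S) (R w i j) := by
  intro F G h p hp
  have e1 := h p hp
  have e2 := h _ (hp.cup hi hj)
  have e3 := h _ (hp.swap hi hj)
  have e4 := h _ (hp.cut hi hj)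
  have e5 := h _ ((hp.cut hi hj).cup hi hj)
  simp only [R, e1, e2, e3, e4, e5]

theorem pres_M_ES (w : α → Wt K) {S : Set α} {c : α} (hc : c ∈ S) (X : List α) (hX : ∀ x ∈ X, x ∈ S) :
    HS.Pres (ES S) (ES S) (M w c X) := by
  induction X with
  | nil => exact HS.Pres.id _
  | cons x X ih =>
    have h1 := ih (fun y hy => hX y (by simp [hy]))
    exact HS.Pres.comp (Y := M w c X) (pres_R_ES (w x) hc (hX x (by simp))) h1

theorem pres_U_ES {S : Set α} {c d : α} : HS.Pres (K := K) (ES S) (ES (S ∪ {c, d})) (EXL.U c d) := by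
  intro F G h p hp
  have hp' : ES (S ∪ {c, d}) p := fun b hb => hp b (fun e => hb (Or.inl e))
  have e1 := h p hp'
  have e2 := h _ (hp'.cup (i := c) (j := d) (by simp) (by simp))
  simp only [EXL.U, e1, e2]

theorem pres_glue_ES {S : Set α} {c d : α} (hcd : c ≠ d) :
    HS.Pres (K := K) (ES (S ∪ {c, d})) (ES S) (glue c d) := by
  intro F G h p hp
  have key : ∀ q : Pat α, ES (S ∪ {c, d}) q → q c = c → q d = d → ES S q := by
    intro q hq h1 h2 b hb
    by_cases b1 : b = c
    · rw [b1, h1]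
    by_cases b2 : b = d
    · rw [b2, h2]
    exact hq b (by simp [hb, b1, b2])
  unfold glue
  split_ifs with c1 c2 c3 c4
  · exact h p (key p hp c1 c2)
  · rfl
  · rfl
  · rfl
  · apply h
    have i1 := p.inv c
    have i2 := p.inv d
    refine key _ (hp.cut (by simp) (by simp)) ?_ ?_
    · simp only [Pat.cut]
      grind
    · simp only [Pat.cut]
      grind

theorem pres_ring_ES (w : α → Wt K) {c d : α} (hcd : c ≠ d) (X : List α) :
    HS.Pres (ES {x | x ∈ X}) (ES {x | x ∈ X}) (NUG.ringF w c d X) := by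
  have h1 := pres_U_ES (K := K) (S := {x | x ∈ X}) (c := c) (d := d)
  have h2 := pres_M_ES w (S := {x | x ∈ X} ∪ {c, d}) (c := c) (by simp) X (fun x hx => Or.inl hx)
  have h3 := pres_glue_ES (K := K) (S := {x | x ∈ X}) hcd
  exact h1.comp (h2.comp h3)

omit [DecidableEq α] [CommRing K] in
theorem pres_iter {A : Pat α → Prop} {T : (Pat α → K) → (Pat α → K)} (h : HS.Pres A A T) (m : ℕ) :
    HS.Pres A A (T^[m]) := by
  induction m with
  | zero => exact HS.Pres.id _
  | succ m ih =>
    have e : T^[m + 1] = fun F => T (T^[m] F) := by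
      funext F
      exact Function.iterate_succ_apply' T m F
    rw [e]
    exact h.comp ih

end supp

/-! ### the ring on the sites of the strip -/

section site

variable {K : Type*} [CommRing K] {N : ℕ}

theorem M_eq_MF (w : Wt K) (l : List (Fin N)) (F : Pat (Site N) → K) :
    M (fun _ => w) (Site.ax 0) (l.map Site.row) F = MF (fun _ => w) l F := by
  induction l with
  | nil => rfl
  | cons i l ih =>
    rw [List.map_cons, M_cons, ih]
    rfl

theorem U_symm {α : Type*} [DecidableEq α] (i j : α) (F : Pat α → K) : EXL.U i j F = EXL.U j i F := by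
  funext q
  simp only [EXL.U]
  by_cases e1 : q i = i <;> by_cases e2 : q j = j <;> simp [e1, e2, cup_symm i j]

theorem glue_symm {α : Type*} [DecidableEq α] (i j : α) (F : Pat α → K) : glue i j F = glue j i F := by
  rw [← Co_eq_glue, ← Co_eq_glue, Co_symm]

theorem ringF_eq (w : Wt K) (F : Pat (Site N) → K) :
    ringF (fun _ => w) F = NUG.ringF (fun _ => w) (Site.ax 0) (Site.ax 1) (rowsL N) F := by
  unfold ringF NUG.ringF rowsL
  rw [M_eq_MF, U_symm, glue_symm (Site.ax 1)]

/-- **The arcs of the ring**: words on the cylinder. -/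
theorem ring_words (x : K) (hN : 1 ≤ N) (m : ℕ) {r1 r2 : Fin N} (h12 : r1 ≠ r2) :
    (NUG.ringF (fun _ => hexW x) (Site.ax 0) (Site.ax 1) (rowsL N))^[m]
      (HS.ind (cup (Site.row r1) (Site.row r2) Pat.empty)) Pat.empty =
      (Cy N hN).Ws x (_root_.EXL.par N m) {pL ((r2 : ℕ) : ℤ)} (pL ((r1 : ℕ) : ℤ)) := by
  have h1 := totR_fin x hN m (r1 := (r1 : ℕ)) (r2 := (r2 : ℕ)) r1.2 (fun e => h12 (Fin.ext e))
  rw [← h1]
  have h2 := totR_lft x (N := N) (finF K N ((r1 : ℕ) : ℤ) ((r2 : ℕ) : ℤ)) m Pat.empty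
  rw [L_empty_pat] at h2
  rw [h2]
  have e : ringF (K := K) (N := N) (fun _ => hexW x) =
      NUG.ringF (fun _ => hexW x) (Site.ax 0) (Site.ax 1) (rowsL N) := by
    funext F
    exact ringF_eq _ F
  rw [e]
  have h3 := pres_iter (pres_ring_ES (fun _ => hexW x) (c := Site.ax 0) (d := Site.ax 1) (by simp) (rowsL N)) m
  refine h3 _ _ ?_ Pat.empty (fun b _ => rfl)
  intro q hq
  rw [finF_L h12 q]
  intro b hb
  apply hq
  intro hb'
  obtain ⟨i, hi⟩ := mem_rowsL.1 hb'
  exact hb i hi

theorem site_bound (hN : 1 ≤ N) {m : ℕ} (hm : 1 ≤ m) {r1 r2 : Fin N} (h12 : r1 ≠ r2) :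
    (NUG.ringH (Site.ax 0) (Site.ax 1) (rowsL N))^[m]
      (HS.ind (cup (Site.row r1) (Site.row r2) Pat.empty)) Pat.empty ≤ 1 / Real.cos (3 * Real.pi / 8) := by
  unfold NUG.ringH
  rw [ring_words xc hN m h12]
  have e : pL ((r1 : ℕ) : ℤ) = (_root_.EXL.B (-1) ((r1 : ℕ) : ℤ), ((1, -1) : Pt)) := rfl
  rw [e]
  refine Ws_le hN _ _ _ m hm ?_ ?_
  · intro v hv
    have h := (_root_.EXL.mem_par'.1 hv).2.2
    have e : (_root_.EXL.B (-1) ((r1 : ℕ) : ℤ)).1 - (_root_.EXL.B (-1) ((r1 : ℕ) : ℤ)).2 = -3 := by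
      simp only [_root_.EXL.B]
      ring
    rw [e]
    omega
  · intro h hh
    rw [Finset.mem_singleton] at hh
    subst hh
    refine ⟨rfl, ?_⟩
    simp only [pL, _root_.EXL.B]
    ring

end site

/-! ### transport -/

section transport

variable {α β K : Type*} [DecidableEq α] [DecidableEq β] [CommRing K]

theorem ringF_st (E : Pat.Emb β α) (w : Wt K) (c d : β) (X : List β) (F : Pat α → K) (q : Pat β) :
    NUG.ringF (fun _ => w) (E.φ c) (E.φ d) (X.map E.φ) F (E.st q) =
      NUG.ringF (fun _ => w) c d X (fun q => F (E.st q)) q := by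
  unfold NUG.ringF
  rw [U_st]
  congr 1
  funext q1
  rw [M_st]
  congr 1
  funext q2
  rw [glue_st]

theorem ringF_st_iter (E : Pat.Emb β α) (w : Wt K) (c d : β) (X : List β) (F : Pat α → K) (m : ℕ) : ∀ q : Pat β,
    (NUG.ringF (fun _ => w) (E.φ c) (E.φ d) (X.map E.φ))^[m] F (E.st q) =
      (NUG.ringF (fun _ => w) c d X)^[m] (fun q => F (E.st q)) q := by
  induction m with
  | zero => intro q; rfl
  | succ m ih =>
    intro q
    rw [Function.iterate_succ_apply', Function.iterate_succ_apply', ringF_st]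
    congr 1
    funext q'
    exact ih q'

/-- embedding given by an injective map. -/
def injEmb (φ : β → α) (h : Function.Injective φ) : Pat.Emb β α := ⟨φ, h, Pat.empty, fun b => ⟨b, rfl⟩⟩

omit [DecidableEq α] [DecidableEq β] in
theorem injEmb_empty (φ : β → α) (h : Function.Injective φ) : (injEmb φ h).st Pat.empty = Pat.empty := by
  ext x
  by_cases hx : ∃ b, φ b = x
  · obtain ⟨b, rfl⟩ := hx
    exact Pat.Emb.st_apply (injEmb φ h) _ b
  · exact Pat.Emb.st_apply' (injEmb φ h) _ hx

theorem arc_st (φ : β → α) (h : Function.Injective φ) (w : Wt K) (c d x1 x2 : β) (X : List β) (m : ℕ) :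
    (NUG.ringF (fun _ => w) (φ c) (φ d) (X.map φ))^[m] (HS.ind (cup (φ x1) (φ x2) Pat.empty)) Pat.empty =
      (NUG.ringF (fun _ => w) c d X)^[m] (HS.ind (cup x1 x2 Pat.empty)) Pat.empty := by
  have h1 := ringF_st_iter (injEmb φ h) w c d X (HS.ind (cup (φ x1) (φ x2) Pat.empty)) m Pat.empty
  rw [injEmb_empty] at h1
  refine h1.trans ?_
  apply congrFun
  congr 1
  funext q
  have e1 : cup (φ x1) (φ x2) Pat.empty = (injEmb φ h).st (cup x1 x2 Pat.empty) := by
    rw [← Pat.Emb.st_cup, injEmb_empty]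
    rfl
  unfold HS.ind
  rw [e1]
  have e2 : (injEmb φ h).st q = (injEmb φ h).st (cup x1 x2 Pat.empty) ↔ q = cup x1 x2 Pat.empty :=
    ⟨fun e => st_inj _ e, fun e => by rw [e]⟩
  by_cases e : q = cup x1 x2 Pat.empty
  · rw [if_pos (e2.2 e), if_pos e]
  · rw [if_neg (fun h => e (e2.1 h)), if_neg e]

end transport

/-- **The bound.** -/
theorem arc_le {α : Type*} [DecidableEq α] {X : List α} {c d : α} (hn : X.Nodup) (hcd : c ≠ d) (hc : c ∉ X)
    (hd : d ∉ X) {x1 x2 : α} (h1 : x1 ∈ X) (h2 : x2 ∈ X) (h12 : x1 ≠ x2) {m : ℕ} (hm : 1 ≤ m) :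
    (NUG.ringH c d X)^[m] (HS.ind (cup x1 x2 Pat.empty)) Pat.empty ≤ 1 / Real.cos (3 * Real.pi / 8) := by
  obtain ⟨i1, rfl⟩ := List.get_of_mem h1
  obtain ⟨i2, rfl⟩ := List.get_of_mem h2
  have hi : i1 ≠ i2 := fun e => h12 (by rw [e])
  have hN : 1 ≤ X.length := by
    have := i1.2
    omega
  set φ1 : Option (Option (Fin X.length)) → α := fun o => o.elim c (fun o => o.elim d X.get) with hφ1
  set φ2 : Option (Option (Fin X.length)) → Site X.length :=
    fun o => o.elim (Site.ax 0) (fun o => o.elim (Site.ax 1) Site.row) with hφ2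
  have k1 : Function.Injective φ1 := by
    intro a b h
    rcases a with _ | _ | a <;> rcases b with _ | _ | b
    · rfl
    · exact absurd h hcd
    · have e : c = X.get b := h
      exact absurd (e ▸ List.get_mem X b) hc
    · exact absurd h.symm hcd
    · rfl
    · have e : d = X.get b := h
      exact absurd (e ▸ List.get_mem X b) hd
    · have e : c = X.get a := h.symm
      exact absurd (e ▸ List.get_mem X a) hc
    · have e : d = X.get a := h.symm
      exact absurd (e ▸ List.get_mem X a) hd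
    · have : a = b := hn.injective_get h
      rw [this]
  have k2 : Function.Injective φ2 := by
    intro a b h
    rcases a with _ | _ | a <;> rcases b with _ | _ | b <;> simp_all
  have e1 := arc_st φ1 k1 (hexW xc) none (some none) (some (some i1)) (some (some i2))
    ((List.finRange X.length).map (fun i => some (some i))) m
  have e2 := arc_st φ2 k2 (hexW xc) none (some none) (some (some i1)) (some (some i2))
    ((List.finRange X.length).map (fun i => some (some i))) m
  have f1 : ((List.finRange X.length).map (fun i => some (some i))).map φ1 = X := by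
    rw [List.map_map]
    exact List.map_get_finRange X
  have f2 : ((List.finRange X.length).map (fun i => some (some i))).map φ2 = rowsL X.length := by
    rw [List.map_map]
    rfl
  rw [f1] at e1
  rw [f2] at e2
  have e3 := site_bound hN hm hi
  unfold NUG.ringH at e3 ⊢
  refine le_trans (le_of_eq ?_) e3
  exact e1.trans e2.symm

end Pool.Agent.NUF.Cyl
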