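import Pool.Agent.NUF.Cyl.Seam
import Pool.Agent.EXL.Moves

/-!
# The ring operator and the network of the cylinder (helper93)
-/

set_option autoImplicit false

namespace Pool.Agent.NUF.Cyl

open Pool.Agent.EXL Pool.Agent.EXL.Net Pat HexObs HexObs.LP

variable {K : Type*} [CommRing K]

/-- the ring through all rows. -/
def ringF {N : ℕ} (w : Fin N → Wt K) (F : Pat (Site N) → K) : Pat (Site N) → K :=
  U (Site.ax 1) (Site.ax 0) (MF w (List.finRange N) (glue (Site.ax 1) (Site.ax 0) F))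

/-- vertices of the column. -/
def VLc (N : ℕ) (k : ℤ) : List Pt :=
  (List.range N).flatMap (fun i : ℕ => [_root_.EXL.A k i, _root_.EXL.B k i])

/-- half edges of the contractions of the column. -/
def HLc (N : ℕ) (k : ℤ) : List (Pt × Pt) :=
  (List.range N).flatMap (fun i : ℕ => [(_root_.EXL.A k i, (0, -1)), (_root_.EXL.A (k + 1) i, (-1, 1)),
    (_root_.EXL.A k i, (1, 0))])

theorem mem_VLc {N : ℕ} {k : ℤ} {v : Pt} : v ∈ VLc N k ↔
    ∃ i : ℕ, i < N ∧ (v = _root_.EXL.A k i ∨ v = _root_.EXL.B k i) := by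
  unfold VLc
  simp [List.mem_flatMap]

theorem mem_HLc {N : ℕ} {k : ℤ} {h : Pt × Pt} : h ∈ HLc N k ↔
    ∃ i : ℕ, i < N ∧ (h = (_root_.EXL.A k i, (0, -1)) ∨ h = (_root_.EXL.A (k + 1) i, (-1, 1)) ∨
    h = (_root_.EXL.A k i, (1, 0))) := by
  unfold HLc
  simp [List.mem_flatMap]

/-- the rhombi of a column. -/
noncomputable def rowsOp (x : K) (N : ℕ) (k : ℤ) : Op Lab K :=
  ((List.finRange N).map (fun i : Fin N => Rho x k ((i : ℕ) : ℤ))).prod

theorem rowsOp_sort (x : K) (N : ℕ) (k : ℤ) : rowsOp x N k =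
    ((VLc N k).map (Crv x)).prod * ((HLc N k).map (fun h => (CoS (Net.ed h) : Op Lab K))).prod := by
  set L : List Tot.At := (List.range N).flatMap (fun i : ℕ => Tot.cell k i) with hL
  have h1 : (L.map (Tot.op x)).prod = rowsOp x N k := by
    unfold rowsOp
    rw [hL, Tot.prod_flat, Tot.fin_range N (fun i : ℕ => Rho x k (i : ℤ))]
    simp only [Tot.prod_cell]
  have h2 : L.Pairwise Tot.Ok := by
    rw [hL, List.pairwise_flatMap]
    refine ⟨fun i _ => Tot.ok_cell k i, ?_⟩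
    exact List.pairwise_lt_range.imp fun {a b} hab x hx y hy => Tot.ok_cells (by exact_mod_cast hab) hx hy
  have h3 : L.filterMap Tot.gv = VLc N k := by
    rw [hL, List.filterMap_flatMap]
    rfl
  have h4 : L.filterMap Tot.gc = HLc N k := by
    rw [hL, List.filterMap_flatMap]
    rfl
  have h5 : ∀ b, L.filterMap (Tot.ge b) = [] := by
    intro b
    rw [hL, List.filterMap_flatMap]
    have : ∀ i : ℕ, (Tot.cell k i).filterMap (Tot.ge b) = [] := fun i => rfl
    simp [this]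
  rw [← h1, Tot.sort x L h2, h3, h4, h5, h5]
  simp

/-- the network of a ring. -/
noncomputable def colR (x : K) (N : ℕ) (k : ℤ) : Op Lab K :=
  UO (lX 1) (lN k (-1)) * rowsOp x N k * Co (lX 1) (lN k ((N : ℤ) - 1))

theorem HLc_cons {N : ℕ} (hN : 1 ≤ N) (k : ℤ) : ∃ HR : List (Pt × Pt),
    HLc N k = (_root_.EXL.A k 0, (0, -1)) :: HR ∧
    ∀ h ∈ HR, (∃ i : ℤ, 1 ≤ i ∧ i < N ∧ h = (_root_.EXL.A k i, (0, -1))) ∨
      ∃ i : ℤ, 0 ≤ i ∧ i < N ∧ (h = (_root_.EXL.A (k + 1) i, (-1, 1)) ∨ h = (_root_.EXL.A k i, (1, 0))) := by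
  obtain ⟨M, rfl⟩ : ∃ M, N = M + 1 := ⟨N - 1, by omega⟩
  refine ⟨(_root_.EXL.A (k + 1) 0, (-1, 1)) :: (_root_.EXL.A k 0, (1, 0)) ::
    ((List.range M).map Nat.succ).flatMap (fun i : ℕ => [(_root_.EXL.A k i, (0, -1)),
      (_root_.EXL.A (k + 1) i, (-1, 1)), (_root_.EXL.A k i, (1, 0))]), ?_, ?_⟩
  · unfold HLc
    rw [List.range_succ_eq_map, List.flatMap_cons]
    rfl
  · intro h hh
    simp only [List.mem_cons, List.mem_flatMap, List.mem_map, List.mem_range, List.not_mem_nil, or_false] at hh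
    rcases hh with rfl | rfl | ⟨i, ⟨a, ha, rfl⟩, rfl | rfl | rfl⟩
    · exact Or.inr ⟨0, le_rfl, by push_cast; omega, Or.inl rfl⟩
    · exact Or.inr ⟨0, le_rfl, by push_cast; omega, Or.inr rfl⟩
    · exact Or.inl ⟨(a.succ : ℕ), by push_cast; omega, by push_cast; omega, rfl⟩
    · exact Or.inr ⟨(a.succ : ℕ), by push_cast; omega, by push_cast; omega, Or.inl rfl⟩
    · exact Or.inr ⟨(a.succ : ℕ), by push_cast; omega, by push_cast; omega, Or.inr rfl⟩

theorem lX_hf (l : ℕ) : lX l = hf ((0, 0), ((l : ℤ) + 5, 0)) := rfl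

theorem A_ne_zero (k i : ℤ) : ((0, 0) : Pt) ≠ _root_.EXL.A k i := by
  simp only [_root_.EXL.A, ne_eq, Prod.mk.injEq]
  omega

theorem A_ne_B (k i k' i' : ℤ) : _root_.EXL.A k i ≠ _root_.EXL.B k' i' := by
  simp only [_root_.EXL.A, _root_.EXL.B, ne_eq, Prod.mk.injEq]
  omega

theorem B_ne_zero (k : ℤ) {i : ℤ} (hi : 0 ≤ i) : ((0, 0) : Pt) ≠ _root_.EXL.B k i := by
  simp only [_root_.EXL.B, ne_eq, Prod.mk.injEq]
  omega

theorem B_inj {k i k' i' : ℤ} : _root_.EXL.B k i = _root_.EXL.B k' i' ↔ k = k' ∧ i = i' := by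
  simp only [_root_.EXL.B, Prod.mk.injEq]
  omega

theorem A_inj {k i k' i' : ℤ} : _root_.EXL.A k i = _root_.EXL.A k' i' ↔ k = k' ∧ i = i' := by
  simp only [_root_.EXL.A, Prod.mk.injEq]
  omega

theorem lN_hf (k i : ℤ) : lN k i = hf (_root_.EXL.B k i, (0, 1)) := rfl

theorem ed_seam {N : ℕ} (hN : 1 ≤ N) (k : ℤ) :
    (Cy N hN).ed (_root_.EXL.A k 0, (0, -1)) = s(lS k 0, lN k ((N : ℤ) - 1)) := by
  unfold Nm.ed Nm.rv
  rw [nb_A_S0 hN]
  rfl

theorem ed_plane {N : ℕ} (hN : 1 ≤ N) {k : ℤ} {h : Pt × Pt}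
    (hh : (∃ i : ℤ, 1 ≤ i ∧ i < N ∧ h = (_root_.EXL.A k i, (0, -1))) ∨
      ∃ i : ℤ, 0 ≤ i ∧ i < N ∧ (h = (_root_.EXL.A (k + 1) i, (-1, 1)) ∨ h = (_root_.EXL.A k i, (1, 0)))) :
    (Cy N hN).ed h = Net.ed h := by
  have e : ∀ h : Pt × Pt, (Cy N hN).nb h = h.1 + h.2 → (Cy N hN).ed h = Net.ed h := by
    intro h h1
    unfold Nm.ed Net.ed Nm.rv rv
    rw [h1]
  rcases hh with ⟨i, h1, h2, rfl⟩ | ⟨i, h1, h2, rfl | rfl⟩
  · apply e
    rw [nb_A_S hN k h1 h2, _root_.EXL.A_down]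
  · apply e
    rw [nb_A_W hN _ h1 h2, _root_.EXL.A_left]
  · apply e
    rw [nb_A_M hN _ h1 h2, _root_.EXL.A_right]

theorem commute_list_map {M ι : Type*} [Monoid M] {X : M} {l : List ι} {f : ι → M} (h : ∀ a ∈ l, Commute X (f a)) :
    Commute X (l.map f).prod := by
  apply Commute.list_prod_right
  intro y hy
  rw [List.mem_map] at hy
  obtain ⟨a, ha, rfl⟩ := hy
  exact h a ha

/-- the sorted form of the network of a ring. -/
theorem colR_eq (x : K) {N : ℕ} (hN : 1 ≤ N) (k : ℤ) : colR x N k =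
    ((VLc N k).map (Crv x)).prod * (PO (lX 1) * PO (lN k (-1))) *
      ((HLc N k).map (fun h => (CoS ((Cy N hN).ed h) : Op Lab K))).prod := by
  obtain ⟨HR, h1, h2⟩ := HLc_cons hN k
  unfold colR
  rw [rowsOp_sort, h1, List.map_cons, List.prod_cons, List.map_cons, List.prod_cons]
  have e1 : (HR.map (fun h => (CoS ((Cy N hN).ed h) : Op Lab K))) = HR.map (fun h => CoS (Net.ed h)) :=
    List.map_congr_left (fun h hh => by rw [ed_plane hN (h2 h hh)])
  rw [e1, ed_seam hN]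
  set V := ((VLc N k).map (Crv x)).prod with hV
  set H := (HR.map (fun h => (CoS (Net.ed h) : Op Lab K))).prod with hH
  have e2 : (CoS (Net.ed (_root_.EXL.A k 0, (0, -1))) : Op Lab K) = Co (lN k (-1)) (lS k 0) := by
    rw [Tot.ed_S]
    rfl
  have c1 : Commute (UO (lX 1) (lN k (-1)) : Op Lab K) V := by
    apply commute_list_map
    intro v hv
    rw [mem_VLc] at hv
    obtain ⟨i, hi, rfl | rfl⟩ := hv
    · exact UO_Crv_comm x (A_ne_zero _ _) (fun e => A_ne_B _ _ _ _ e.symm)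
    · refine UO_Crv_comm x (B_ne_zero _ (by positivity)) ?_
      simp only [ne_eq, B_inj]
      omega
  have c2 : Commute (Co (lX 1) (lN k ((N : ℤ) - 1)) : Op Lab K) H := by
    apply commute_list_map
    intro h hh
    rcases h2 h hh with ⟨i, h3, h4, rfl⟩ | ⟨i, h3, h4, rfl | rfl⟩
    · rw [Tot.ed_S, Tot.CoS_mk]
      exact Co_comm (by simp) (by simp) (by simp; omega) (by simp)
    · rw [Tot.ed_W, Tot.CoS_mk]
      exact Co_comm (by simp) (by simp) (by simp) (by simp)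
    · rw [Tot.ed_M, Tot.CoS_mk]
      exact Co_comm (by simp) (by simp) (by simp) (by simp)
  have e3 := seam (K := K) (z := lX 1) (s := lN k (-1)) (a := lS k 0) (n := lN k ((N : ℤ) - 1)) (by
    simp
    omega)
  rw [e2]
  have e4 : (CoS s(lS k 0, lN k ((N : ℤ) - 1)) : Op Lab K) = Co (lS k 0) (lN k ((N : ℤ) - 1)) := rfl
  rw [e4]
  calc _ = (UO (lX 1) (lN k (-1)) * V) * (Co (lN k (-1)) (lS k 0) * (H * Co (lX 1) (lN k ((N : ℤ) - 1)))) := by
        simp only [mul_assoc]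
    _ = V * (UO (lX 1) (lN k (-1)) * Co (lN k (-1)) (lS k 0) * Co (lX 1) (lN k ((N : ℤ) - 1))) * H := by
        rw [c1.eq, ← c2.eq]
        simp only [mul_assoc]
    _ = _ := by
        rw [e3]
        simp only [mul_assoc]

theorem Co_eq_glue {α : Type*} [DecidableEq α] (i j : α) (F : Pat α → K) : Co i j F = glue i j F := by
  funext p
  rw [Co_apply]
  unfold glue
  by_cases h1 : p i = i
  · by_cases h2 : p j = j
    · rw [if_pos ⟨h1, h2⟩, if_pos h1, if_pos h2]
    · rw [if_neg (fun h => h2 h.2), if_pos (Or.inl h1), if_pos h1, if_neg h2]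
  · by_cases h2 : p j = j
    · rw [if_neg (fun h => h1 h.1), if_pos (Or.inr (Or.inl h2)), if_neg h1, if_pos h2]
    · by_cases h3 : p i = j
      · rw [if_neg (fun h => h1 h.1), if_pos (Or.inr (Or.inr h3)), if_neg h1, if_neg h2, if_pos h3]
      · rw [if_neg (fun h => h1 h.1), if_neg (by simp [h1, h2, h3]), if_neg h1, if_neg h2, if_neg h3]

theorem glue_congr {α : Type*} [DecidableEq α] {i j : α} (hij : i ≠ j) {F F' : Pat α → K}
    (h : ∀ q : Pat α, q i = i → q j = j → F q = F' q) : glue i j F = glue i j F' := by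
  funext p
  unfold glue
  split_ifs with h1 h2 h3 h4
  · exact h p h1 h2
  · rfl
  · rfl
  · rfl
  · have i1 := p.inv i
    have i2 := p.inv j
    apply h
    · simp only [cut]
      grind
    · simp only [cut]
      grind

theorem MF_congr {N : ℕ} (w : Fin N → Wt K) (l : List (Fin N)) {F F' : Pat (Site N) → K} (h : F = F') :
    MF w l F = MF w l F' := by rw [h]

/-- the network of a ring is the ring operator. -/
theorem colR_lft (x : K) {N : ℕ} (k : ℤ) (G : Pat Lab → K) (q : Pat (Site N)) :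
    colR x N k G (L N k 0 q) = ringF (fun _ => hexW x) (fun q => G (L N (k - 1) 0 q)) q := by
  unfold colR
  simp only [Module.End.mul_apply]
  rw [UO_apply]
  unfold L lft
  refine (U_st (femb (kap N k 0) (kap_inj N k 0)) _ q (Site.ax 1) (Site.ax 0)).trans ?_
  unfold ringF
  congr 1
  funext q1
  have h1 := rows_lft x k (Co (lX 1) (lN k ((N : ℤ) - 1)) G) N 0 (by omega) q1
  rw [List.drop_zero] at h1
  unfold L lft at h1
  unfold rowsOp
  refine h1.trans ?_
  unfold MF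
  apply congrFun
  apply foldr_congr_fun
  funext q2
  rw [Co_eq_glue]
  have e3 : lN k ((N : ℤ) - 1) = kap N k N (Site.ax 0) := rfl
  have e4 : lX 1 = kap N k N (Site.ax 1) := rfl
  rw [e3, e4]
  refine (glue_st (femb (kap N k N) (kap_inj N k N)) G q2 (Site.ax 1) (Site.ax 0)).trans ?_
  apply congrFun
  apply glue_congr (by simp)
  intro q3 hq3 hq4
  congr 1
  apply lft_congr
  intro b hb
  cases b with
  | fl => rfl
  | tp => rfl
  | row i =>
    rw [kap_row_lt i.2, kap_row_ge (by omega), sub_add_cancel]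
  | ax l =>
    by_cases c : l = 0
    · subst c
      exact absurd hq4 hb
    · simp [kap, c]

end Pool.Agent.NUF.Cyl
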