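import Pool.Agent.NUF.Cyl.Total

/-!
# The arcs on the cylinder (helper93)
-/

set_option autoImplicit false

namespace Pool.Agent.NUF.Cyl

open Pool.Agent.EXL Pool.Agent.EXL.Net Pat HexObs HexObs.LP

variable {K : Type*} [CommRing K]

theorem nodup_HLc (N : ℕ) (k : ℤ) : (HLc N k).Nodup := by
  unfold HLc
  rw [List.nodup_flatMap]
  refine ⟨fun i _ => ?_, ?_⟩
  · simp only [List.nodup_cons, List.mem_cons, List.not_mem_nil, or_false, not_false_eq_true, List.nodup_nil,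
      and_true, not_or, Prod.mk.injEq, not_and]
    refine ⟨⟨fun _ h => ?_, fun _ h => ?_⟩, fun _ h => ?_⟩ <;> simp at h
  · refine List.pairwise_lt_range.imp fun {a b} hab => ?_
    intro v h1 h2
    simp only [List.mem_cons, List.not_mem_nil, or_false] at h1 h2
    rcases h1 with rfl | rfl | rfl <;> rcases h2 with h2 | h2 | h2 <;>
      (have h3 := A_inj.1 (congrArg Prod.fst h2); omega)

theorem nodup_HAll (N m : ℕ) : (HAll N m).Nodup := by
  have h1 : ∀ m, (HT N m).Nodup := by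
    intro m
    induction m with
    | zero => exact List.nodup_nil
    | succ m ih =>
      show (HLc N m ++ HT N m).Nodup
      rw [List.nodup_append]
      refine ⟨nodup_HLc N m, ih, ?_⟩
      intro v h1 w h2 h3
      subst h3
      rw [mem_HLc] at h1
      rw [mem_HT] at h2
      obtain ⟨i, hi, h1⟩ := h1
      obtain ⟨k, hk, i', hi', h2⟩ := h2
      rcases h1 with rfl | rfl | rfl <;> rcases h2 with h2 | h2 | h2 <;>
        (have h3 := A_inj.1 (congrArg Prod.fst h2); have h4 := congrArg Prod.snd h2;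
         simp only [Prod.mk.injEq] at h4; omega)
  unfold HAll
  rw [List.nodup_append]
  refine ⟨h1 m, ?_, ?_⟩
  · unfold HLeft
    refine List.Nodup.map_on ?_ List.nodup_range
    intro a _ b _ hab
    have h3 := A_inj.1 (congrArg Prod.fst hab)
    omega
  · intro v h1 w h2 h3
    subst h3
    rw [mem_HT] at h1
    unfold HLeft at h2
    rw [List.mem_map] at h2
    obtain ⟨i, hi, rfl⟩ := h2
    obtain ⟨k, hk, i', hi', h2⟩ := h1
    rcases h2 with h2 | h2 | h2 <;>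
      (have h3 := A_inj.1 (congrArg Prod.fst h2); have h4 := congrArg Prod.snd h2;
       simp only [Prod.mk.injEq] at h4; omega)

theorem HAll_nm {N m : ℕ} (hN : 1 ≤ N) {h : Pt × Pt} (hh : h ∈ HAll N m) :
    (Cy N hN).nm h.1 = h.1 ∧ (Cy N hN).De h ∧ cl h.1 = 2 := by
  rw [mem_HAll] at hh
  rcases hh with ⟨k, i, hk, hi, rfl | rfl⟩ | ⟨k, i, hk, hi, rfl⟩
  · have h1 := nm_A hN (k : ℤ) (i := (i : ℤ)) (by positivity) (by exact_mod_cast hi)
    exact ⟨h1, ⟨(Tot.De_A' _ _).1, h1⟩, cl_A _ _⟩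
  · have h1 := nm_A hN (k : ℤ) (i := (i : ℤ)) (by positivity) (by exact_mod_cast hi)
    exact ⟨h1, ⟨(Tot.De_A' _ _).2.2, h1⟩, cl_A _ _⟩
  · have h1 := nm_A hN (k : ℤ) (i := (i : ℤ)) (by positivity) (by exact_mod_cast hi)
    exact ⟨h1, ⟨(Tot.De_A' _ _).2.1, h1⟩, cl_A _ _⟩

theorem nodup_ed {N m : ℕ} (hN : 1 ≤ N) : ((HAll N m).map (Cy N hN).ed).Nodup := by
  refine List.Nodup.map_on ?_ (nodup_HAll N m)
  intro h hh k hk e
  rw [Nm.ed_eq (HAll_nm hN hk).1] at e
  rcases e with e | e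
  · exact e
  · exfalso
    have h1 := (HAll_nm hN hh).2.2
    rw [e] at h1
    have h2 : cl ((Cy N hN).rv k).1 = cl k.1 + cl k.2 := by
      show cl ((Cy N hN).nb k) = _
      unfold Nm.nb
      rw [(Cy N hN).cl, cl_add]
    rw [h2, (HAll_nm hN hk).2.2] at h1
    have key : ∀ d ∈ dirs, (2 : ZMod 3) + cl d ≠ 2 := by decide
    exact key _ (HAll_nm hN hk).2.1.1.1 h1

/-- all edges. -/
def EAll (N m : ℕ) (hN : 1 ≤ N) : Finset (Sym2 Lab) := ((HAll N m).map (Cy N hN).ed).toFinset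

theorem mem_EAll {N m : ℕ} {hN : 1 ≤ N} {e : Sym2 Lab} : e ∈ EAll N m hN ↔
    ∃ h ∈ HAll N m, (Cy N hN).ed h = e := by
  unfold EAll
  rw [List.mem_toFinset, List.mem_map]

theorem edg_EAll (N m : ℕ) (hN : 1 ≤ N) : (Cy N hN).Edg (EAll N m hN) := by
  intro e he
  rw [mem_EAll] at he
  obtain ⟨h, hh, rfl⟩ := he
  exact ⟨h, (HAll_nm hN hh).2.1, rfl⟩

theorem CO_list {C : Nm} {l : List (Pt × Pt)} (hl : (l.map C.ed).Nodup) {E : Finset (Sym2 Lab)} (hE : C.Edg E)
    (h : (l.map C.ed).toFinset = E) : Nm.CO K E hE = (l.map (fun h => (CoS (C.ed h) : Op Lab K))).prod := by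
  subst h
  refine (Finset.noncommProd_toFinset (l.map C.ed) CoS _ hl).trans ?_
  rw [List.map_map]
  rfl

theorem CO_EAll {N : ℕ} (hN : 1 ≤ N) (m : ℕ) : Nm.CO K (EAll N m hN) (edg_EAll N m hN) =
    ((HT N m).map (fun h => (CoS ((Cy N hN).ed h) : Op Lab K))).prod * leftOp K N := by
  rw [left_list hN, ← List.prod_append, ← List.map_append]
  exact CO_list (nodup_ed hN) _ rfl

/-- edges at the domain. -/
theorem ed_mem {N m : ℕ} (hN : 1 ≤ N) : ∀ w ∈ _root_.EXL.par N m, ∀ d, (Cy N hN).De (w, d) →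
    (Cy N hN).ed (w, d) ∈ EAll N m hN := by
  intro w hw d hd
  obtain ⟨k, i, ⟨h1, h2⟩, ⟨h3, h4⟩, h⟩ := _root_.EXL.mem_par.1 hw
  obtain ⟨k, rfl⟩ := Int.eq_ofNat_of_zero_le h1
  obtain ⟨i, rfl⟩ := Int.eq_ofNat_of_zero_le h3
  have hk : k < m := by exact_mod_cast h2
  have hi : i < N := by exact_mod_cast h4
  rw [mem_EAll]
  rcases h with rfl | rfl
  · rcases Tot.De_A hd.1 with rfl | rfl | rfl
    · exact ⟨_, mem_HAll.2 (Or.inl ⟨k, i, hk, hi, Or.inl rfl⟩), rfl⟩
    · exact ⟨_, mem_HAll.2 (Or.inr ⟨k, i, hk.le, hi, rfl⟩), rfl⟩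
    · exact ⟨_, mem_HAll.2 (Or.inl ⟨k, i, hk, hi, Or.inr rfl⟩), rfl⟩
  · rcases Tot.De_B hd.1 with rfl | rfl | rfl
    · by_cases hiN : i + 1 = N
      · refine ⟨(_root_.EXL.A k 0, (0, -1)), mem_HAll.2 (Or.inl ⟨k, 0, hk, by omega, Or.inl (by push_cast; rfl)⟩), ?_⟩
        rw [← Nm.ed_rv (C := Cy N hN) hd.2]
        congr 1
        unfold Nm.rv Nm.nb
        simp only [_root_.EXL.B_up]
        have : (i : ℤ) + 1 = N := by exact_mod_cast hiN
        rw [this, nm_A_top hN]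
        rfl
      · refine ⟨(_root_.EXL.A k ((i + 1 : ℕ) : ℤ), (0, -1)), mem_HAll.2 (Or.inl ⟨k, i + 1, hk, by omega, Or.inl rfl⟩), ?_⟩
        rw [← Nm.ed_rv (C := Cy N hN) hd.2]
        congr 1
        unfold Nm.rv Nm.nb
        simp only [_root_.EXL.B_up]
        rw [nm_A hN _ (by positivity) (by omega)]
        push_cast
        rfl
    · refine ⟨(_root_.EXL.A ((k + 1 : ℕ) : ℤ) i, (-1, 1)), mem_HAll.2 (Or.inr ⟨k + 1, i, by omega, hi, rfl⟩), ?_⟩
      rw [← Nm.ed_rv (C := Cy N hN) hd.2]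
      congr 1
      unfold Nm.rv Nm.nb
      simp only [_root_.EXL.B_right]
      rw [nm_A hN _ (by positivity) (by exact_mod_cast hi)]
      push_cast
      rfl
    · refine ⟨(_root_.EXL.A k i, (1, 0)), mem_HAll.2 (Or.inl ⟨k, i, hk, hi, Or.inr rfl⟩), ?_⟩
      rw [← Nm.ed_rv (C := Cy N hN) hd.2]
      congr 1
      unfold Nm.rv Nm.nb
      simp only [_root_.EXL.B_left]
      rw [nm_A hN _ (by positivity) (by exact_mod_cast hi)]
      rfl

theorem De_pL {N : ℕ} (hN : 1 ≤ N) {r : ℤ} (h1 : 0 ≤ r) (h2 : r < N) : (Cy N hN).De (pL r) := by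
  refine ⟨?_, nm_B hN _ h1 h2⟩
  have h3 := Tot.De_rv' (Tot.De_A' 0 r).2.1
  have e : rv (_root_.EXL.A 0 r, ((-1, 1) : Pt)) = pL r := by
    unfold LP.rv pL
    simp only [_root_.EXL.A_left]
    rfl
  rw [e] at h3
  exact h3

theorem ed_pL {N m : ℕ} (hN : 1 ≤ N) {r : ℕ} (h2 : r < N) : (Cy N hN).ed (pL r) ∈ EAll N m hN := by
  rw [mem_EAll]
  refine ⟨(_root_.EXL.A 0 r, (-1, 1)), mem_HAll.2 (Or.inr ⟨0, r, by omega, h2, by push_cast; rfl⟩), ?_⟩
  rw [← Nm.ed_rv (C := Cy N hN) (De_pL hN (r := (r : ℤ)) (by positivity) (by exact_mod_cast h2)).2]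
  congr 1
  unfold Nm.rv Nm.nb pL
  simp only [_root_.EXL.B_right]
  rw [nm_A hN _ (by positivity) (by exact_mod_cast h2)]
  rfl

theorem pL_notMem {N m : ℕ} (r : ℤ) : (pL r).1 ∉ _root_.EXL.par N m := by
  intro h
  unfold pL at h
  have := _root_.EXL.B_mem.1 h
  omega

theorem pL_inj {r r' : ℤ} (h : pL r = pL r') : r = r' := by
  unfold pL at h
  exact (B_inj.1 (congrArg Prod.fst h)).2

/-- the words from row r1 to row r2 in m rings. -/
theorem words_eq (x : K) {N : ℕ} (hN : 1 ≤ N) (m : ℕ) {r1 r2 : ℕ} (h1 : r1 < N) (h12 : r1 ≠ r2) :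
    (CR x (_root_.EXL.par N m) * EN K true {pL r2} * Nm.CO K (EAll N m hN) (edg_EAll N m hN) : Op Lab K)
      (dlt K) (st (pL r1)) = (Cy N hN).Ws x (_root_.EXL.par N m) {pL r2} (pL r1) := by
  refine Nm.main x {pL r2} _ (_root_.EXL.par N m) rfl (EAll N m hN) (edg_EAll N m hN) (pL r1)
    (De_pL hN (by positivity) (by exact_mod_cast h1)) (pL_notMem _) (ed_pL hN h1) (ed_mem hN) ?_ ?_
  · intro h hh
    rw [Finset.mem_singleton] at hh
    rw [hh]
    exact pL_notMem _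
  · rw [Finset.mem_singleton]
    intro e
    exact h12 (by exact_mod_cast pL_inj e)

/-! ### the ends -/

theorem cupO_be_Crv (x : K) {b : Bool} {h : Pt × Pt} {v : Pt} (h1 : h.1 ≠ v) :
    Commute (cupO (Sum.inr b) (hf h) : Op Lab K) (Crv x v) := by
  have e : ∀ d : Pt, (hf (v, d) : Lab) ≠ hf h := by
    intro d hd
    rw [Sum.inl.injEq] at hd
    exact h1 (congrArg Prod.fst hd).symm
  unfold Crv
  exact (Cr_cupO_comm (by simp) (e _) (by simp) (e _) (by simp) (e _)).symm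

theorem cupO_be_CoS {N : ℕ} (hN : 1 ≤ N) {b : Bool} {k : ℕ} {h : Pt × Pt} (hh : h ∈ HLc N k) (r : ℤ) :
    Commute (cupO (Sum.inr b) (hf (pL r)) : Op Lab K) (CoS ((Cy N hN).ed h)) := by
  obtain ⟨⟨k', i, hk', h1, h2, h3⟩, j, h4, h5, h6⟩ := HLc_ends hN hh
  obtain ⟨u, d⟩ := h
  simp only at h3
  subst h3
  show Commute (cupO (Sum.inr b) (hf (pL r)) : Op Lab K)
    (Co (hf (_root_.EXL.A k' i, d)) (hf ((Cy N hN).nb (_root_.EXL.A k' i, d), -d)))
  rw [h6]
  refine cupO_Co_comm (by simp) (by simp) ?_ ?_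
  · rw [Ne, Sum.inl.injEq]
    exact fun e => A_ne_B _ _ _ _ (congrArg Prod.fst e).symm
  · rw [Ne, Sum.inl.injEq]
    intro e
    have := (B_inj.1 (congrArg Prod.fst e)).1
    omega

theorem cupO_be_VV (x : K) (N m : ℕ) {b : Bool} (r : ℤ) :
    Commute (cupO (Sum.inr b) (hf (pL r)) : Op Lab K) ((VT N m).map (Crv x)).prod := by
  apply commute_list_map
  intro v hv
  apply cupO_be_Crv
  intro e
  have h1 : v ∈ (VT N m).toFinset := List.mem_toFinset.2 hv
  rw [VT_par] at h1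
  exact pL_notMem r (e ▸ h1)

theorem cupO_be_HH {N : ℕ} (hN : 1 ≤ N) (m : ℕ) {b : Bool} (r : ℤ) :
    Commute (cupO (Sum.inr b) (hf (pL r)) : Op Lab K)
      ((HT N m).map (fun h => (CoS ((Cy N hN).ed h) : Op Lab K))).prod := by
  induction m with
  | zero => exact Commute.one_right _
  | succ m ih =>
    show Commute _ ((HLc N m ++ HT N m).map (fun h => (CoS ((Cy N hN).ed h) : Op Lab K))).prod
    rw [List.map_append, List.prod_append]
    exact Commute.mul_right (commute_list_map (fun h hh => cupO_be_CoS hN hh r)) ih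

/-- the final function: the arc from row r1 to row r2. -/
noncomputable def finF (K : Type*) [CommRing K] (N : ℕ) (r1 r2 : ℤ) : Pat Lab → K :=
  (cupO be (hf (pL r1)) * En ta (hf (pL r2)) * leftOp K N : Op Lab K) (dlt K)

/-- the network of m rings with the final function. -/
theorem totR_fin (x : K) {N : ℕ} (hN : 1 ≤ N) (m : ℕ) {r1 r2 : ℕ} (h1 : r1 < N) (h12 : r1 ≠ r2) :
    totR x N m (finF K N r1 r2) Pat.empty = (Cy N hN).Ws x (_root_.EXL.par N m) {pL r2} (pL r1) := by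
  rw [← words_eq x hN m h1 h12]
  have e1 : CR x (_root_.EXL.par N m) = ((VT N m).map (Crv x)).prod := by
    rw [← VT_par]
    exact Finset.noncommProd_toFinset _ _ _ (nodup_VT N m)
  have e2 : EN K true {pL r2} = En ta (hf (pL r2)) := by
    unfold EN
    rw [Finset.noncommProd_singleton]
  rw [e1, e2, CO_EAll hN]
  unfold finF
  rw [totR_eq x hN]
  set VV := ((VT N m).map (Crv x)).prod with hVV
  set HH := ((HT N m).map (fun h => (CoS ((Cy N hN).ed h) : Op Lab K))).prod with hHH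
  set P := PL K (zT m) with hP
  set c : Op Lab K := cupO be (hf (pL r1)) with hc
  set t : Op Lab K := En ta (hf (pL r2)) with ht
  have c1 : Commute c VV := cupO_be_VV x N m _
  have c2 : Commute c HH := cupO_be_HH hN m _
  have c3 : Commute t HH := by
    rw [ht]
    unfold En
    exact (Commute.one_left _).add_left (cupO_be_HH hN m _)
  have e3 : P * VV * HH * (c * t * leftOp K N) = P * (c * (VV * t * (HH * leftOp K N))) := by
    calc _ = P * VV * (HH * c) * t * leftOp K N := by simp only [mul_assoc]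
      _ = P * (VV * c) * (HH * t) * leftOp K N := by
        rw [← c2.eq]
        simp only [mul_assoc]
      _ = _ := by
        rw [← c1.eq, ← c3.eq]
        simp only [mul_assoc]
  show ((P * VV * HH) * (c * t * leftOp K N)) (dlt K) Pat.empty = _
  rw [e3, Module.End.mul_apply, hP, PL_apply _ _ _ (fun _ _ => rfl), Module.End.mul_apply, hc, cupO_apply,
    if_pos ⟨rfl, rfl⟩]
  rfl

end Pool.Agent.NUF.Cyl
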