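import Pool.Agent.NUF.Cyl.Arcs
import Pool.Agent.EXL.H1b

/-!
# Evaluation of the final function on the states of the rows (helper93)
-/

set_option autoImplicit false

namespace Pool.Agent.NUF.Cyl

open Pool.Agent.EXL Pool.Agent.EXL.Net Pat HexObs HexObs.LP

variable {K : Type*} [CommRing K]

/-- only rows are occupied. -/
def RO {N : ℕ} (q : Pat (Site N)) : Prop := ∀ b : Site N, (∀ i, b ≠ Site.row i) → q b = b

/-- the function vanishes if the top end is free. -/
def Unt (F : Pat Lab → K) : Prop := ∀ q : Pat Lab, q ta = ta → F q = 0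

theorem unt_dlt : Unt (dlt K) := by
  intro q h
  have : q ≠ full := by
    rintro rfl
    rw [full_ta] at h
    simp at h
  simp [dlt, this]

theorem unt_Co {h k : Pt × Pt} {F : Pat Lab → K} (hF : Unt F) : Unt (Co (hf h) (hf k) F) := by
  intro q hq
  rw [Co_apply]
  split_ifs with c1 c2
  · exact hF q hq
  · rfl
  · apply hF
    have i1 := q.inv (hf h)
    have i2 := q.inv (hf k)
    have i3 := q.inv ta
    have n1 : (ta : Lab) ≠ hf h := by simp
    have n2 : (ta : Lab) ≠ hf k := by simp
    simp only [cut]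
    grind

/-- contraction at the left end in row i. -/
noncomputable def cl0 (K : Type*) [CommRing K] (i : ℕ) : Op Lab K := Co (lW 0 (i : ℤ)) (lE (-1) (i : ℤ))

theorem unt_left {N : ℕ} (l : List (Fin N)) {F : Pat Lab → K} (hF : Unt F) :
    Unt ((l.map (fun i : Fin N => cl0 K (i : ℕ))).prod F) := by
  induction l with
  | nil => exact hF
  | cons i l ih =>
    rw [List.map_cons, List.prod_cons]
    exact unt_Co ih

theorem rest_one {N : ℕ} (l : List (Fin N)) (G : Pat Lab → K) (p : Pat Lab)
    (h1 : ∀ i ∈ l, p (lE (-1) ((i : ℕ) : ℤ)) = lE (-1) ((i : ℕ) : ℤ))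
    (h2 : ∀ i ∈ l, p (lW 0 ((i : ℕ) : ℤ)) = lW 0 ((i : ℕ) : ℤ)) :
    (l.map (fun i : Fin N => cl0 K (i : ℕ))).prod G p = G p := by
  induction l with
  | nil => rfl
  | cons i l ih =>
    rw [List.map_cons, List.prod_cons, Module.End.mul_apply]
    unfold cl0 at ih ⊢
    rw [Co_apply, if_pos ⟨h2 i (by simp), h1 i (by simp)⟩]
    exact ih (fun j hj => h1 j (by simp [hj])) (fun j hj => h2 j (by simp [hj]))

theorem rest_zero {N : ℕ} (l : List (Fin N)) (G : Pat Lab → K) (p : Pat Lab)
    (h1 : ∀ i ∈ l, p (lE (-1) ((i : ℕ) : ℤ)) = lE (-1) ((i : ℕ) : ℤ))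
    {j : Fin N} (hj : j ∈ l) (h2 : p (lW 0 ((j : ℕ) : ℤ)) ≠ lW 0 ((j : ℕ) : ℤ)) :
    (l.map (fun i : Fin N => cl0 K (i : ℕ))).prod G p = 0 := by
  induction l with
  | nil => simp at hj
  | cons i l ih =>
    rw [List.map_cons, List.prod_cons, Module.End.mul_apply]
    unfold cl0 at ih ⊢
    rw [Co_apply]
    by_cases c : p (lW 0 ((i : ℕ) : ℤ)) = lW 0 ((i : ℕ) : ℤ)
    · rw [if_pos ⟨c, h1 i (by simp)⟩]
      rcases List.mem_cons.1 hj with rfl | hj'
      · exact absurd c h2
      · exact ih (fun j hj => h1 j (by simp [hj])) hj'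
    · rw [if_neg (fun h => c h.1), if_pos (Or.inr (Or.inl (h1 i (by simp))))]

theorem left_split {N : ℕ} {r1 r2 : Fin N} (h12 : r1 ≠ r2) : ∃ l : List (Fin N),
    (∀ i, i ∈ l ↔ i ≠ r1 ∧ i ≠ r2) ∧
    leftOp K N = (l.map (fun i : Fin N => cl0 K (i : ℕ))).prod * (cl0 K (r1 : ℕ) * cl0 K (r2 : ℕ)) := by
  refine ⟨((List.finRange N).erase r1).erase r2, ?_, ?_⟩
  · intro i
    have hn : (List.finRange N).Nodup := List.nodup_finRange N
    rw [(hn.erase r1).mem_erase_iff, hn.mem_erase_iff]
    simp only [List.mem_finRange, and_true]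
    tauto
  · have hperm : (List.finRange N).Perm (((List.finRange N).erase r1).erase r2 ++ [r1, r2]) := by
      have h1 := List.perm_cons_erase (List.mem_finRange r1)
      have h3 : r2 ∈ (List.finRange N).erase r1 := by
        rw [(List.nodup_finRange N).mem_erase_iff]
        exact ⟨h12.symm, List.mem_finRange r2⟩
      have h2 := List.perm_cons_erase h3
      refine h1.trans ((h2.cons r1).trans ?_)
      exact (List.perm_append_comm (l₁ := [r1, r2]))
    have h4 := (hperm.map (fun i : Fin N => cl0 K (i : ℕ))).prod_eq' (by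
      rw [List.pairwise_map]
      refine (List.nodup_finRange N).imp ?_
      intro a b hab
      have hab' : ((a : ℕ) : ℤ) ≠ ((b : ℕ) : ℤ) := by
        intro e
        exact hab (Fin.ext (by exact_mod_cast e))
      unfold cl0
      exact Co_comm (by simp; omega) (by simp) (by simp) (by simp; omega))
    have h5 : leftOp K N = ((List.finRange N).map (fun i : Fin N => cl0 K (i : ℕ))).prod := rfl
    rw [h5, h4, List.map_append, List.prod_append]
    simp

theorem arc_eval {α : Type*} [DecidableEq α] {a1 a2 h1 h2 b t : α} (hd : [a1, a2, h1, h2, b, t].Nodup)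
    (G : Pat α → K) :
    (Co a1 h1 * Co a2 h2 : Op α K) G (cup t h2 (cup b h1 (cup a1 a2 Pat.empty))) = G (cup b t Pat.empty) := by
  simp only [List.nodup_cons, List.mem_cons, not_or, List.not_mem_nil, not_false_eq_true,
    and_true, List.nodup_nil] at hd
  obtain ⟨⟨d1, d2, d3, d4, d5⟩, ⟨e1, e2, e3, e4⟩, ⟨f1, f2, f3⟩, ⟨g1, g2⟩, k1⟩ := hd
  set p : Pat α := cup t h2 (cup b h1 (cup a1 a2 Pat.empty)) with hp
  have hpx : ∀ x, p x = if x = a1 then a2 else if x = a2 then a1 else if x = b then h1 else if x = h1 then b else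
      if x = t then h2 else if x = h2 then t else x := by
    intro x
    simp only [hp, cup, Pat.empty, id]
    grind
  rw [Module.End.mul_apply, Co_apply]
  have p1 : p a1 = a2 := by rw [hpx]; simp
  have p2 : p h1 = b := by rw [hpx]; grind
  have c1 : ¬ (p a1 = a1 ∧ p h1 = h1) := by rw [p1, p2]; grind
  have c2 : ¬ (p a1 = a1 ∨ p h1 = h1 ∨ p a1 = h1) := by rw [p1, p2]; grind
  rw [if_neg c1, if_neg c2, Co_apply]
  set r : Pat α := cut a1 h1 p with hr
  have hrx : ∀ x, r x = if x = a2 then b else if x = b then a2 else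
      if x = t then h2 else if x = h2 then t else x := by
    intro x
    have := hpx x
    simp only [hr, cut, p1, p2]
    grind
  have r1 : r a2 = b := by rw [hrx]; simp
  have r2 : r h2 = t := by rw [hrx]; grind
  have c3 : ¬ (r a2 = a2 ∧ r h2 = h2) := by rw [r1, r2]; grind
  have c4 : ¬ (r a2 = a2 ∨ r h2 = h2 ∨ r a2 = h2) := by rw [r1, r2]; grind
  rw [if_neg c3, if_neg c4]
  congr 1
  ext x
  have := hrx x
  simp only [cut, r1, r2, cup, Pat.empty, id]
  grind

theorem kap_row0 {N : ℕ} (i : Fin N) : kap N (-1) 0 (Site.row i) = lW 0 ((i : ℕ) : ℤ) := by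
  rw [kap_row_ge (by omega)]
  norm_num

/-- the final function is the indicator function of the arc. -/
theorem finF_L {N : ℕ} {r1 r2 : Fin N} (h12 : r1 ≠ r2) (q : Pat (Site N)) (hq : RO q) :
    finF K N ((r1 : ℕ) : ℤ) ((r2 : ℕ) : ℤ) (L N (-1) 0 q) =
      HS.ind (cup (Site.row r1) (Site.row r2) Pat.empty) q := by
  classical
  obtain ⟨l, hl1, hl2⟩ := left_split (K := K) h12
  have hne : ((r1 : ℕ) : ℤ) ≠ ((r2 : ℕ) : ℤ) := fun e => h12 (Fin.ext (by exact_mod_cast e))
  set h1 : Lab := hf (pL ((r1 : ℕ) : ℤ)) with hh1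
  set h2 : Lab := hf (pL ((r2 : ℕ) : ℤ)) with hh2
  have eh1 : h1 = lE (-1) ((r1 : ℕ) : ℤ) := rfl
  have eh2 : h2 = lE (-1) ((r2 : ℕ) : ℤ) := rfl
  set s : Pat Lab := L N (-1) 0 q with hs
  have s1 : s be = be := by
    have e : be = kap N (-1) 0 Site.fl := rfl
    rw [e, hs]
    unfold L
    rw [lft_apply, hq _ (by simp)]
  have s2 : s ta = ta := by
    have e : ta = kap N (-1) 0 Site.tp := rfl
    rw [e, hs]
    unfold L
    rw [lft_apply, hq _ (by simp)]
  have s3 : ∀ i : ℤ, s (lE (-1) i) = lE (-1) i := fun i => L_empty q (by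
    intro b; cases b <;> simp only [kap] <;> (try split_ifs) <;> simp)
  have s4 : ∀ i : Fin N, s (lW 0 ((i : ℕ) : ℤ)) = kap N (-1) 0 (q (Site.row i)) := by
    intro i
    rw [← kap_row0, hs]
    unfold L
    rw [lft_apply]
  have s5 : ∀ i : Fin N, s (lW 0 ((i : ℕ) : ℤ)) = lW 0 ((i : ℕ) : ℤ) ↔ q (Site.row i) = Site.row i := by
    intro i
    rw [s4, ← kap_row0]
    exact (kap_inj N (-1) 0).eq_iff
  -- the ends
  have d1 : h1 ≠ be := by rw [eh1]; simp
  have d2 : h1 ≠ ta := by rw [eh1]; simp
  have d3 : h2 ≠ be := by rw [eh2]; simp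
  have d4 : h2 ≠ ta := by rw [eh2]; simp
  have d5 : h1 ≠ h2 := by rw [eh1, eh2]; simpa using hne
  have d6 : (be : Lab) ≠ ta := by simp
  set t1 : Pat Lab := cup be h1 s with ht1
  have x1 : ∀ x, t1 x = if x = be then h1 else if x = h1 then be else s x := by
    intro x
    simp only [ht1, cup]
    rw [if_pos ⟨s1, by rw [eh1]; exact s3 _⟩]
  have y1 : t1 ta = ta := by rw [x1, if_neg d6.symm, if_neg d2.symm, s2]
  have y2 : t1 h2 = h2 := by rw [x1, if_neg d3, if_neg d5.symm, eh2, s3]
  set t2 : Pat Lab := cup ta h2 t1 with ht2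
  have x2 : ∀ x, t2 x = if x = ta then h2 else if x = h2 then ta else t1 x := by
    intro x
    simp only [ht2, cup]
    rw [if_pos ⟨y1, y2⟩]
  have step : finF K N ((r1 : ℕ) : ℤ) ((r2 : ℕ) : ℤ) s = leftOp K N (dlt K) t2 := by
    unfold finF
    simp only [Module.End.mul_apply]
    rw [← hh1, ← hh2, cupO_apply, if_pos ⟨s1, by rw [eh1]; exact s3 _⟩, ← ht1]
    unfold En
    simp only [LinearMap.add_apply, Module.End.one_apply, Pi.add_apply]
    rw [cupO_apply, if_pos ⟨y1, y2⟩, ← ht2]
    have : leftOp K N (dlt K) t1 = 0 := by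
      have h5 : leftOp K N = ((List.finRange N).map (fun i : Fin N => cl0 K (i : ℕ))).prod := rfl
      rw [h5]
      exact unt_left _ unt_dlt t1 y1
    rw [this, zero_add]
  rw [step, hl2, Module.End.mul_apply]
  have z1 : ∀ i ∈ l, t2 (lE (-1) ((i : ℕ) : ℤ)) = lE (-1) ((i : ℕ) : ℤ) := by
    intro i hi
    obtain ⟨i1, i2⟩ := (hl1 i).1 hi
    have j1 : ((i : ℕ) : ℤ) ≠ ((r1 : ℕ) : ℤ) := fun e => i1 (Fin.ext (by exact_mod_cast e))
    have j2 : ((i : ℕ) : ℤ) ≠ ((r2 : ℕ) : ℤ) := fun e => i2 (Fin.ext (by exact_mod_cast e))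
    rw [x2, if_neg (by simp), if_neg (by rw [eh2]; simpa using j2), x1, if_neg (by simp),
      if_neg (by rw [eh1]; simpa using j1), s3]
  have z2 : ∀ i : Fin N, t2 (lW 0 ((i : ℕ) : ℤ)) = s (lW 0 ((i : ℕ) : ℤ)) := by
    intro i
    rw [x2, if_neg (by simp), if_neg (by rw [eh2]; simp), x1, if_neg (by simp), if_neg (by rw [eh1]; simp)]
  by_cases hc : ∀ i ∈ l, q (Site.row i) = Site.row i
  · rw [rest_one l _ t2 z1 (fun i hi => by rw [z2, s5]; exact hc i hi)]
    by_cases hr : q (Site.row r1) = Site.row r1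
    · -- the empty state
      have : HS.ind (cup (Site.row r1) (Site.row r2) Pat.empty) q = (0 : K) := by
        unfold HS.ind
        rw [if_neg]
        rintro rfl
        simp [cup, Pat.empty, h12.symm] at hr
      rw [this, Module.End.mul_apply]
      unfold cl0
      rw [Co_apply, if_neg, if_pos]
      · refine Or.inl ?_
        rw [z2, s5]
        exact hr
      · rintro ⟨-, h⟩
        rw [← eh1, x2, if_neg d2, if_neg d5, x1, if_neg d1, if_pos rfl] at h
        exact d1 h.symm
    · -- the arc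
      have hq2 : q = cup (Site.row r1) (Site.row r2) Pat.empty := by
        have k0 : ∀ i, i ≠ r1 → i ≠ r2 → q (Site.row i) = Site.row i := fun i i1 i2 => hc i ((hl1 i).2 ⟨i1, i2⟩)
        have k1 : q (Site.row r1) = Site.row r2 := by
          by_contra hcon
          have hb : ∀ b, q (Site.row r1) = b → False := by
            intro b hb
            have hb' : q b = Site.row r1 := by rw [← hb, q.inv]
            by_cases e : ∃ i, b = Site.row i
            · obtain ⟨i, rfl⟩ := e
              by_cases i1 : i = r1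
              · subst i1
                exact hr hb
              · by_cases i2 : i = r2
                · subst i2
                  exact hcon hb
                · rw [k0 i i1 i2] at hb'
                  exact i1 (by simpa using hb')
            · push Not at e
              rw [hq b e] at hb'
              exact e r1 hb'
          exact hb _ rfl
        have k2 : q (Site.row r2) = Site.row r1 := by rw [← k1, q.inv]
        ext b
        simp only [cup, Pat.empty, id, and_self, if_true]
        split_ifs with b1 b2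
        · rw [b1]; exact k1
        · rw [b2]; exact k2
        · by_cases e : ∃ i, b = Site.row i
          · obtain ⟨i, rfl⟩ := e
            exact k0 i (fun e => b1 (by rw [e])) (fun e => b2 (by rw [e]))
          · push Not at e
            exact hq b e
      have hs2 : t2 = cup ta h2 (cup be h1 (cup (lW 0 ((r1 : ℕ) : ℤ)) (lW 0 ((r2 : ℕ) : ℤ)) Pat.empty)) := by
        rw [ht2, ht1, hs, hq2]
        congr 2
        unfold L
        rw [← cup_lft, kap_row0, kap_row0]
        congr 1
        exact L_empty_pat N (-1)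
      rw [hs2]
      unfold cl0
      rw [← eh1, ← eh2, arc_eval, hq2, HS.ind_self]
      · have : (cup be ta Pat.empty : Pat Lab) = full := rfl
        rw [this]
        simp [dlt]
      · rw [eh1, eh2]
        simp [hne]
  · push Not at hc
    obtain ⟨i, hi, hi2⟩ := hc
    rw [rest_zero l _ t2 z1 hi (by rw [z2]; exact fun e => hi2 ((s5 i).1 e))]
    unfold HS.ind
    rw [if_neg]
    rintro rfl
    obtain ⟨i1, i2⟩ := (hl1 i).1 hi
    apply hi2
    simp [cup, Pat.empty, i1, i2]

end Pool.Agent.NUF.Cyl
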