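import Pool.Agent.NUF.Cyl.Net
import Pool.Agent.EXL.NetDefs

/-!
# The honeycomb cylinder with N rows: translation, domain, bound of the words (helper93)
-/

set_option autoImplicit false

namespace Pool.Agent.NUF.Cyl

open Pool.Agent.EXL Pool.Agent.EXL.Net Pat HexObs HexObs.LP

/-- row index of a vertex. -/
def ri (v : Pt) : ℤ := (v.1 + 2 * v.2 - 2) / 3

/-- translation by t rows. -/
def tr (t : ℤ) (v : Pt) : Pt := (v.1 + t, v.2 + t)

theorem ri_tr (t : ℤ) (v : Pt) : ri (tr t v) = ri v + t := by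
  simp only [ri, tr]
  omega

/-- the representative on the cylinder with N rows. -/
def nmN (N : ℕ) (v : Pt) : Pt := tr (-((N : ℤ) * (ri v / N))) v

theorem nmN_tr (N : ℕ) (hN : 1 ≤ N) (t : ℤ) (v : Pt) : nmN N (tr (N * t) v) = nmN N v := by
  unfold nmN
  rw [ri_tr]
  have h : (ri v + N * t) / (N : ℤ) = ri v / N + t := Int.add_mul_ediv_left _ _ (by omega)
  rw [h]
  simp only [tr, Prod.mk.injEq]
  constructor <;> ring

/-- the cylinder with N rows. -/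
def Cy (N : ℕ) (hN : 1 ≤ N) : Nm where
  nm := nmN N
  add v d := by
    have : nmN N v + d = tr (N * (-(ri v / N))) (v + d) := by
      simp only [nmN, tr, Prod.ext_iff, Prod.fst_add, Prod.snd_add]
      constructor <;> ring
    rw [this, nmN_tr N hN]
  cl v := by
    simp only [nmN, tr, cl]
    congr 1
    ring

theorem nm_eq {N : ℕ} (hN : 1 ≤ N) (v : Pt) : (Cy N hN).nm v = nmN N v := rfl

theorem nn_nm {N : ℕ} (hN : 1 ≤ N) (v : Pt) : ((Cy N hN).nm v).1 - ((Cy N hN).nm v).2 = v.1 - v.2 := by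
  simp only [nm_eq, nmN, tr]
  ring

theorem nm_fix {N : ℕ} (hN : 1 ≤ N) {v : Pt} (h1 : 0 ≤ ri v) (h2 : ri v < N) : (Cy N hN).nm v = v := by
  rw [nm_eq, nmN, Int.ediv_eq_zero_of_lt h1 h2]
  simp [tr]

theorem nm_row {N : ℕ} (hN : 1 ≤ N) {v : Pt} (t : ℤ) (h1 : N * t ≤ ri v) (h2 : ri v < N * t + N) :
    (Cy N hN).nm v = tr (-(N * t)) v := by
  rw [nm_eq, nmN]
  have : ri v / (N : ℤ) = t := by
    rw [Int.ediv_eq_iff_of_pos (by omega)]
    constructor
    · rw [mul_comm]; exact h1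
    · rw [mul_comm]; exact h2
  rw [this]

@[simp] theorem ri_A (k i : ℤ) : ri (_root_.EXL.A k i) = i := by
  simp only [ri, _root_.EXL.A]
  omega

@[simp] theorem ri_B (k i : ℤ) : ri (_root_.EXL.B k i) = i := by
  simp only [ri, _root_.EXL.B]
  omega

theorem nm_A {N : ℕ} (hN : 1 ≤ N) (k : ℤ) {i : ℤ} (h1 : 0 ≤ i) (h2 : i < N) :
    (Cy N hN).nm (_root_.EXL.A k i) = _root_.EXL.A k i := nm_fix hN (by simpa using h1) (by simpa using h2)

theorem nm_B {N : ℕ} (hN : 1 ≤ N) (k : ℤ) {i : ℤ} (h1 : 0 ≤ i) (h2 : i < N) :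
    (Cy N hN).nm (_root_.EXL.B k i) = _root_.EXL.B k i := nm_fix hN (by simpa using h1) (by simpa using h2)

theorem nm_A_top {N : ℕ} (hN : 1 ≤ N) (k : ℤ) :
    (Cy N hN).nm (_root_.EXL.A k N) = _root_.EXL.A k 0 := by
  rw [nm_row hN 1 (by rw [ri_A]; omega) (by rw [ri_A]; omega)]
  simp only [tr, _root_.EXL.A, Prod.mk.injEq]
  constructor <;> ring

theorem nm_B_bot {N : ℕ} (hN : 1 ≤ N) (k : ℤ) :
    (Cy N hN).nm (_root_.EXL.B k (-1)) = _root_.EXL.B k ((N : ℤ) - 1) := by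
  rw [nm_row hN (-1) (by rw [ri_B]; omega) (by rw [ri_B]; omega)]
  simp only [tr, _root_.EXL.B, Prod.mk.injEq]
  constructor <;> ring

/-! ### neighbours -/

theorem nb_A_S {N : ℕ} (hN : 1 ≤ N) (k : ℤ) {i : ℤ} (h1 : 1 ≤ i) (h2 : i < N) :
    (Cy N hN).nb (_root_.EXL.A k i, (0, -1)) = _root_.EXL.B k (i - 1) := by
  unfold Nm.nb
  rw [_root_.EXL.A_down, nm_B hN k (by omega) (by omega)]

theorem nb_A_S0 {N : ℕ} (hN : 1 ≤ N) (k : ℤ) :
    (Cy N hN).nb (_root_.EXL.A k 0, (0, -1)) = _root_.EXL.B k ((N : ℤ) - 1) := by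
  unfold Nm.nb
  rw [_root_.EXL.A_down]
  exact nm_B_bot hN k

theorem nb_A_W {N : ℕ} (hN : 1 ≤ N) (k : ℤ) {i : ℤ} (h1 : 0 ≤ i) (h2 : i < N) :
    (Cy N hN).nb (_root_.EXL.A k i, (-1, 1)) = _root_.EXL.B (k - 1) i := by
  unfold Nm.nb
  rw [_root_.EXL.A_left, nm_B hN _ h1 h2]

theorem nb_A_M {N : ℕ} (hN : 1 ≤ N) (k : ℤ) {i : ℤ} (h1 : 0 ≤ i) (h2 : i < N) :
    (Cy N hN).nb (_root_.EXL.A k i, (1, 0)) = _root_.EXL.B k i := by
  unfold Nm.nb
  rw [_root_.EXL.A_right, nm_B hN _ h1 h2]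

/-! ### the bound -/

theorem ip_col (v w : Pt) : ip (v - w) (1, -1) = (v.1 - v.2) - (w.1 - w.2) := by
  simp only [ip, Prod.fst_sub, Prod.snd_sub]
  ring

theorem dir_E : ((1, -1) : Pt) ∈ dirs := by decide

/-- the words of the cylinder are words of the half plane. -/
theorem Ws_le {N : ℕ} (hN : 1 ≤ N) (A : Finset Pt) (T : Finset (Pt × Pt)) (v0 : Pt) (m : ℕ) (hm : 1 ≤ m)
    (hA : ∀ v ∈ A, v0.1 - v0.2 < v.1 - v.2 ∧ v.1 - v.2 < v0.1 - v0.2 + 3 * m + 2)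
    (hT : ∀ h ∈ T, h.2 = (1, -1) ∧ h.1.1 - h.1.2 = v0.1 - v0.2) :
    (Cy N hN).Ws xc A T (v0, (1, -1)) ≤ 1 / Real.cos (3 * Real.pi / 8) := by
  classical
  set C := Cy N hN with hC
  set d0 : Pt := (1, -1) with hd0
  set P : Finset (List Bool) := (C.arr A (v0, d0)).filter (fun t => C.rv (C.le (v0, d0) t) ∈ T) with hP
  have hc3 : 0 < Real.cos (3 * Real.pi / 8) := by
    apply Real.cos_pos_of_mem_Ioo
    constructor <;> linarith [Real.pi_pos]
  have ipd : ∀ v : Pt, ip (v - v0) d0 = (v.1 - v.2) - (v0.1 - v0.2) := fun v => ip_col v v0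
  have hnn : ∀ t : List Bool, ∀ i, (C.nm (vx v0 d0 t i)).1 - (C.nm (vx v0 d0 t i)).2 =
      (vx v0 d0 t i).1 - (vx v0 d0 t i).2 := fun t i => nn_nm hN _
  have hsub : (P : Set (List Bool)) ⊆ out (strip v0 d0 m) v0 d0 (-d0) := by
    intro t ht
    rw [Finset.mem_coe, hP, Finset.mem_filter, Nm.mem_arr] at ht
    obtain ⟨h1, h2⟩ := ht
    have h3 := hT _ h2
    unfold Nm.rv Nm.le at h3
    simp only at h3
    have h4 : dx d0 t t.length = -d0 := by
      rw [← neg_neg (dx d0 t t.length), h3.1]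
    have h5 : (tip v0 d0 t).1 - (tip v0 d0 t).2 = v0.1 - v0.2 := by
      rw [← h3.2]
      unfold Nm.nb
      simp only
      rw [C.add, nn_nm hN]
      rfl
    refine ⟨⟨?_, ?_⟩, ?_, h4⟩
    · intro i hi1 hi2
      have h6 := h1.mem i hi1 hi2
      obtain ⟨a2, a3⟩ := hA _ h6
      simp only at a2 a3
      rw [hnn] at a2 a3
      refine ⟨vx_hex v0 d0 t i, ?_, ?_⟩
      · rw [ipd]
        omega
      · rw [ipd]
        omega
    · intro i k hik hk hik'
      rcases Nat.eq_zero_or_pos i with h0 | h0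
      · subst h0
        have h6 := h1.mem k (by omega) hk
        obtain ⟨a2, a3⟩ := hA _ h6
        simp only at a2
        rw [hnn, ← hik'] at a2
        exact lt_irrefl _ a2
      · exact h1.inj i k h0 hik hk (by simp only; rw [hik'])
    · intro h6
      have h7 := h6.2.1
      rw [ipd] at h7
      omega
  have h1 : ENNReal.ofReal (∑ t ∈ P, xc ^ t.length) ≤ gf (out (strip v0 d0 m) v0 d0 (-d0)) := by
    rw [← gf_finset]
    exact gf_mono hsub
  have h2 := strip_identity (v0 := v0) dir_E hm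
  have h3 : ENNReal.ofReal (Real.cos (3 * Real.pi / 8)) * gf (out (strip v0 d0 m) v0 d0 (-d0)) ≤ 1 := by
    rw [← h2]
    exact le_add_self
  have h4 : ENNReal.ofReal (Real.cos (3 * Real.pi / 8) * ∑ t ∈ P, xc ^ t.length) ≤ 1 := by
    rw [ENNReal.ofReal_mul hc3.le]
    exact (mul_le_mul_right h1 _).trans h3
  rw [ENNReal.ofReal_le_one] at h4
  rw [le_div_iff₀ hc3]
  unfold Nm.Ws
  rw [mul_comm]
  exact h4

end Pool.Agent.NUF.Cyl
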