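import Pool.Agent.EXL.Net1

/-!
# The honeycomb cylinder: network of half edges modulo a translation (helper93)

`nm` maps the vertices of the plane lattice to representatives (vertices of the cylinder).  The value of the
network of a domain on the cylinder with one end at a boundary half edge is the sum over the words that are
self-avoiding on the cylinder.
-/

set_option autoImplicit false

namespace Pool.Agent.NUF.Cyl

open Pool.Agent.EXL Pool.Agent.EXL.Net Pat HexObs HexObs.LP

/-- Representatives modulo a translation group. -/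
structure Nm where
  nm : Pt → Pt
  add : ∀ v d, nm (nm v + d) = nm (v + d)
  cl : ∀ v, cl (nm v) = cl v

namespace Nm

variable (C : Nm)

theorem idem (v : Pt) : C.nm (C.nm v) = C.nm v := by
  have := C.add v 0
  simpa using this

/-- the neighbour. -/
def nb (p : Pt × Pt) : Pt := C.nm (p.1 + p.2)

/-- the other half of the edge. -/
def rv (p : Pt × Pt) : Pt × Pt := (C.nb p, -p.2)

/-- half edges of the cylinder. -/
def De (p : Pt × Pt) : Prop := LP.De p ∧ C.nm p.1 = p.1

variable {C}

theorem nm_nb (p : Pt × Pt) : C.nm (C.nb p) = C.nb p := C.idem _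

theorem rv_rv {p : Pt × Pt} (h : C.nm p.1 = p.1) : C.rv (C.rv p) = p := by
  unfold rv nb
  simp only [neg_neg]
  rw [C.add, add_neg_cancel_right, h]

theorem vt_nm {v : Pt} : Vt (C.nm v) ↔ Vt v := by
  unfold Vt
  rw [C.cl]

theorem De.rv' {p : Pt × Pt} (h : C.De p) : C.De (C.rv p) := by
  obtain ⟨⟨h1, h2, h3⟩, h4⟩ := h
  refine ⟨⟨?_, ?_, ?_⟩, C.nm_nb p⟩
  · have key : ∀ d ∈ dirs, -d ∈ dirs := by decide
    exact key p.2 h1
  · exact vt_nm.2 h3
  · show Vt (C.nb p + -p.2)
    rw [← vt_nm (C := C)]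
    unfold nb
    rw [C.add, add_neg_cancel_right, h4]
    exact h2

theorem De.turn {v d : Pt} (h : C.De (v, d)) (b : Bool) : C.De (C.nb (v, d), turn b d) := by
  obtain ⟨⟨h1, h2, h3⟩, h4⟩ := h
  refine ⟨⟨?_, ?_, ?_⟩, C.nm_nb _⟩
  · rw [mem_dirs, nrm_turn]
    exact mem_dirs.1 h1
  · exact vt_nm.2 h3
  · show Vt (C.nm (v + d) + HexObs.turn b d)
    unfold Vt at *
    rw [cl_add, C.cl, cl_add, cl_turn] at *
    simpa using h2

theorem nb_ne {p : Pt × Pt} (h : C.De p) : C.nb p ≠ p.1 := by
  intro e
  have h1 : HexObs.cl (C.nb p) = HexObs.cl p.1 := by rw [e]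
  unfold nb at h1
  rw [C.cl, cl_add] at h1
  have key : ∀ d ∈ dirs, HexObs.cl d ≠ 0 := by decide
  exact key p.2 h.1.1 (by simpa using h1)

theorem rv_ne {h : Pt × Pt} (hh : C.De h) : h ≠ C.rv h := by
  intro e
  have h1 : h.2 = -h.2 := congrArg Prod.snd e
  have key : ∀ d ∈ dirs, d ≠ -d := by decide
  exact key h.2 hh.1.1 h1

variable (C) in
/-- the edge of a half edge. -/
def ed (h : Pt × Pt) : Sym2 Lab := s(hf h, hf (C.rv h))

theorem CoS_ed {K : Type*} [CommRing K] (h : Pt × Pt) : (CoS (C.ed h) : Op Lab K) = Co (hf h) (hf (C.rv h)) := rfl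

theorem ed_rv {h : Pt × Pt} (hh : C.nm h.1 = h.1) : C.ed (C.rv h) = C.ed h := by
  unfold ed
  rw [rv_rv hh, Sym2.eq_swap]

theorem ed_eq {h k : Pt × Pt} (hk : C.nm k.1 = k.1) : C.ed h = C.ed k ↔ h = k ∨ h = C.rv k := by
  unfold ed
  rw [Sym2.eq_iff]
  simp only [Sum.inl.injEq]
  constructor
  · rintro (⟨h1, -⟩ | ⟨h1, -⟩)
    · exact Or.inl h1
    · exact Or.inr h1
  · rintro (rfl | rfl)
    · exact Or.inl ⟨rfl, rfl⟩
    · exact Or.inr ⟨rfl, rv_rv hk⟩

/-! ### words -/

theorem nm_vx (v d : Pt) (t : List Bool) (i : ℕ) : C.nm (vx (C.nm v) d t i) = C.nm (vx v d t i) := by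
  induction i with
  | zero => exact C.idem v
  | succ i ih =>
    change C.nm (vx (C.nm v) d t i + dx d t i) = C.nm (vx v d t i + dx d t i)
    rw [← C.add (vx (C.nm v) d t i), ih, C.add]

variable (C)

/-- the word is self-avoiding on the cylinder. -/
structure Arr (A : Finset Pt) (p : Pt × Pt) (t : List Bool) : Prop where
  mem : ∀ i, 1 ≤ i → i ≤ t.length → C.nm (vx p.1 p.2 t i) ∈ A
  inj : ∀ i k, 1 ≤ i → i < k → k ≤ t.length → C.nm (vx p.1 p.2 t i) ≠ C.nm (vx p.1 p.2 t k)

/-- the last half edge. -/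
def le (p : Pt × Pt) (t : List Bool) : Pt × Pt := (C.nm (vx p.1 p.2 t t.length), dx p.2 t t.length)

variable {C}

theorem le_nil {p : Pt × Pt} (h : C.nm p.1 = p.1) : C.le p [] = p := by
  unfold le
  exact Prod.ext h rfl

theorem le_cons (p : Pt × Pt) (b : Bool) (s : List Bool) :
    C.le p (b :: s) = C.le (C.nb p, turn b p.2) s := by
  unfold le nb
  simp only [List.length_cons]
  rw [Net.vx_cons, Net.dx_cons, nm_vx]

theorem arr_cons {A : Finset Pt} {p : Pt × Pt} {b : Bool} {s : List Bool} :
    C.Arr A p (b :: s) ↔ C.nb p ∈ A ∧ C.Arr (A.erase (C.nb p)) (C.nb p, turn b p.2) s := by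
  have e1 : C.nm (vx p.1 p.2 (b :: s) 1) = C.nb p := rfl
  have e2 : ∀ i, C.nm (vx p.1 p.2 (b :: s) (i + 1)) = C.nm (vx (C.nb p) (turn b p.2) s i) := by
    intro i
    unfold nb
    rw [Net.vx_cons, nm_vx]
  constructor
  · intro h
    have h1 := h.mem 1 le_rfl (by simp)
    rw [e1] at h1
    refine ⟨h1, ?_, ?_⟩
    · intro i hi1 hi2
      rw [Finset.mem_erase]
      have h2 := h.mem (i + 1) (by omega) (by simpa using hi2)
      have h3 := h.inj 1 (i + 1) le_rfl (by omega) (by simpa using hi2)
      rw [e2] at h2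
      rw [e1, e2] at h3
      exact ⟨fun e => h3 e.symm, h2⟩
    · intro i k h2 h3 h4
      have h5 := h.inj (i + 1) (k + 1) (by omega) (by omega) (by simpa using h4)
      rwa [e2, e2] at h5
  · rintro ⟨h1, h2⟩
    constructor
    · intro i hi1 hi2
      rcases i with _ | i
      · omega
      · rcases Nat.eq_zero_or_pos i with h3 | h3
        · subst h3
          rw [e1]
          exact h1
        · rw [e2]
          simp only [List.length_cons] at hi2
          exact Finset.mem_of_mem_erase (h2.mem i h3 (by omega))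
    · intro i k hi hk hl
      rcases i with _ | i
      · omega
      rcases k with _ | k
      · omega
      simp only [List.length_cons] at hl
      rw [e2, e2]
      rcases Nat.eq_zero_or_pos i with h3 | h3
      · subst h3
        have h4 := h2.mem k (by omega) (by omega)
        rw [Finset.mem_erase] at h4
        have e3 : C.nm (vx (C.nb p) (turn b p.2) s 0) = C.nb p := C.nm_nb p
        rw [e3]
        exact fun e => h4.1 e.symm
      · exact h2.inj i k h3 (by omega) (by omega)

theorem Arr.length_le {A : Finset Pt} {p : Pt × Pt} {t : List Bool} (h : C.Arr A p t) : t.length ≤ A.card := by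
  have h1 : ((Finset.range t.length).image (fun i => C.nm (vx p.1 p.2 t (i + 1)))).card = t.length := by
    rw [Finset.card_image_of_injOn, Finset.card_range]
    intro i hi k hk hik
    rw [Finset.mem_coe, Finset.mem_range] at hi hk
    rcases lt_trichotomy i k with h2 | h2 | h2
    · exact absurd hik (h.inj (i + 1) (k + 1) (by omega) (by omega) (by omega))
    · exact h2
    · exact absurd hik.symm (h.inj (k + 1) (i + 1) (by omega) (by omega) (by omega))
  rw [← h1]
  apply Finset.card_le_card
  intro v hv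
  rw [Finset.mem_image] at hv
  obtain ⟨i, hi, rfl⟩ := hv
  rw [Finset.mem_range] at hi
  exact h.mem (i + 1) (by omega) (by omega)

variable (C) in
theorem arr_finite (A : Finset Pt) (p : Pt × Pt) : {t : List Bool | C.Arr A p t}.Finite :=
  (List.finite_length_le Bool A.card).subset (fun _ ht => Arr.length_le ht)

variable (C) in
/-- all self-avoiding words of the domain. -/
noncomputable def arr (A : Finset Pt) (p : Pt × Pt) : Finset (List Bool) := (C.arr_finite A p).toFinset

theorem mem_arr {A : Finset Pt} {p : Pt × Pt} {t : List Bool} : t ∈ C.arr A p ↔ C.Arr A p t := by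
  unfold arr
  rw [Set.Finite.mem_toFinset]
  exact Iff.rfl

variable {K : Type*} [CommRing K]

variable (C) in
/-- the sum over the words from the half edge p in A that end at a half edge of T. -/
noncomputable def Ws (x : K) (A : Finset Pt) (T : Finset (Pt × Pt)) (p : Pt × Pt) : K :=
  ∑ t ∈ (C.arr A p).filter (fun t => C.rv (C.le p t) ∈ T), x ^ t.length

theorem Ws_out (x : K) {A : Finset Pt} {T : Finset (Pt × Pt)} {p : Pt × Pt} (hp : C.nm p.1 = p.1)
    (h : C.nb p ∉ A) : C.Ws x A T p = if C.rv p ∈ T then 1 else 0 := by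
  unfold Ws
  have e : C.arr A p = {[]} := by
    ext t
    rw [mem_arr, Finset.mem_singleton]
    constructor
    · intro ht
      rcases t with _ | ⟨b, s⟩
      · rfl
      · exact absurd (arr_cons.1 ht).1 h
    · rintro rfl
      exact ⟨fun i h1 h2 => by simp at h2; omega, fun i k h1 h2 h3 => by simp at h3; omega⟩
  rw [e, Finset.filter_singleton, le_nil hp]
  split_ifs
  · simp
  · simp

theorem Ws_in (x : K) {A : Finset Pt} {T : Finset (Pt × Pt)} {p : Pt × Pt} (hp : C.nm p.1 = p.1)
    (h : C.nb p ∈ A) (h' : C.rv p ∉ T) :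
    C.Ws x A T p = x * (C.Ws x (A.erase (C.nb p)) T (C.nb p, rotL p.2) +
      C.Ws x (A.erase (C.nb p)) T (C.nb p, rotR p.2)) := by
  classical
  unfold Ws
  set A' := A.erase (C.nb p) with hA'
  have e : (C.arr A p).filter (fun t => C.rv (C.le p t) ∈ T) =
      ((C.arr A' (C.nb p, rotL p.2)).filter
        (fun t => C.rv (C.le (C.nb p, rotL p.2) t) ∈ T)).image (List.cons true) ∪
      ((C.arr A' (C.nb p, rotR p.2)).filter
        (fun t => C.rv (C.le (C.nb p, rotR p.2) t) ∈ T)).image (List.cons false) := by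
    ext t
    simp only [Finset.mem_union, Finset.mem_image, Finset.mem_filter, mem_arr]
    constructor
    · rintro ⟨h1, h2⟩
      rcases t with _ | ⟨b, s⟩
      · rw [le_nil hp] at h2
        exact absurd h2 h'
      · rw [arr_cons] at h1
        rw [le_cons] at h2
        cases b
        · exact Or.inr ⟨s, ⟨h1.2, h2⟩, rfl⟩
        · exact Or.inl ⟨s, ⟨h1.2, h2⟩, rfl⟩
    · rintro (⟨s, ⟨h1, h2⟩, rfl⟩ | ⟨s, ⟨h1, h2⟩, rfl⟩)
      · rw [arr_cons, le_cons]
        exact ⟨⟨h, h1⟩, h2⟩
      · rw [arr_cons, le_cons]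
        exact ⟨⟨h, h1⟩, h2⟩
  have hd : Disjoint (((C.arr A' (C.nb p, rotL p.2)).filter
        (fun t => C.rv (C.le (C.nb p, rotL p.2) t) ∈ T)).image (List.cons true))
      (((C.arr A' (C.nb p, rotR p.2)).filter
        (fun t => C.rv (C.le (C.nb p, rotR p.2) t) ∈ T)).image (List.cons false)) := by
    rw [Finset.disjoint_left]
    intro t h1 h2
    obtain ⟨s, -, rfl⟩ := Finset.mem_image.1 h1
    obtain ⟨r, -, hr⟩ := Finset.mem_image.1 h2
    simp at hr
  rw [e, Finset.sum_union hd, Finset.sum_image (fun a _ b _ hab => List.cons_injective hab),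
    Finset.sum_image (fun a _ b _ hab => List.cons_injective hab), mul_add, Finset.mul_sum,
    Finset.mul_sum]
  simp only [List.length_cons, pow_succ']

/-! ### products -/

theorem CoS_comm {h k : Pt × Pt} (hh : C.nm h.1 = h.1) (hk : C.nm k.1 = k.1) (h1 : C.ed h ≠ C.ed k) :
    Commute (CoS (C.ed h) : Op Lab K) (CoS (C.ed k)) := by
  rw [CoS_ed, CoS_ed]
  rw [Ne, ed_eq hk, not_or] at h1
  have h2 : C.rv h ≠ C.rv k := fun e => h1.1 (by rw [← rv_rv hh, e, rv_rv hk])
  have h3 : C.rv h ≠ k := fun e => h1.2 (by rw [← e, rv_rv hh])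
  apply Co_comm
  · simp [h1.1]
  · simp [h1.2]
  · simp [h3]
  · simp [h2]

variable (C) in
/-- the edges of E are edges of the cylinder. -/
def Edg (E : Finset (Sym2 Lab)) : Prop := ∀ e ∈ E, ∃ h, C.De h ∧ e = C.ed h

/-- all contractions of the edges in E. -/
noncomputable def CO (K : Type*) [CommRing K] (E : Finset (Sym2 Lab)) (hE : C.Edg E) : Op Lab K :=
  E.noncommProd CoS (fun e he f hf' h => by
    obtain ⟨a, ha, rfl⟩ := hE e he
    obtain ⟨b, hb, rfl⟩ := hE f hf'
    exact CoS_comm ha.2 hb.2 h)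

theorem good_CO {E : Finset (Sym2 Lab)} (hE : C.Edg E) {F : Pat Lab → K} (hF : Good F) :
    Good (CO K E hE F) := by
  refine Finset.noncommProd_induction E _ _ (fun B : Op Lab K => ∀ F, Good F → Good (B F))
    (fun a b ha hb F hF => ha _ (hb F hF)) (fun F hF => hF) (fun e he F hF => ?_) F hF
  obtain ⟨h, h1, rfl⟩ := hE e he
  rw [CoS_ed]
  exact good_Co (rv_ne h1) hF

theorem unu_CO {E : Finset (Sym2 Lab)} (hE : C.Edg E) {F : Pat Lab → K} (hF : Unu F) :
    Unu (CO K E hE F) := by
  refine Finset.noncommProd_induction E _ _ (fun B : Op Lab K => ∀ F, Unu F → Unu (B F))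
    (fun a b ha hb F hF => ha _ (hb F hF)) (fun F hF => hF) (fun e he F hF => ?_) F hF
  obtain ⟨h, h1, rfl⟩ := hE e he
  rw [CoS_ed]
  exact unu_Co _ _ hF

/-! ### the exploration -/

theorem CoS_EN_comm {T : Finset (Pt × Pt)} {p : Pt × Pt} (b : Bool) (h1 : p ∉ T) (h2 : C.rv p ∉ T) :
    Commute (CoS (C.ed p) : Op Lab K) (EN K b T) := by
  refine Finset.noncommProd_commute T _ _ _ (fun h hh => ?_)
  rw [CoS_ed]
  refine (En_Co_comm (by simp) (by simp) ?_ ?_).symm
  · rw [Ne, Sum.inl.injEq]
    rintro rfl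
    exact h1 hh
  · rw [Ne, Sum.inl.injEq]
    rintro rfl
    exact h2 hh

theorem CoS_Crv_comm (x : K) {v : Pt} {p : Pt × Pt} (h1 : p.1 ≠ v) (h2 : C.nb p ≠ v) :
    Commute (CoS (C.ed p) : Op Lab K) (Crv x v) := by
  rw [CoS_ed]
  exact (Crv_Co_comm x h1 h2).symm

theorem CoS_CR_comm (x : K) {A : Finset Pt} {p : Pt × Pt} (h1 : p.1 ∉ A) (h2 : C.nb p ∉ A) :
    Commute (CoS (C.ed p) : Op Lab K) (CR x A) := by
  refine Finset.noncommProd_commute A _ _ _ (fun u hu => ?_)
  refine CoS_Crv_comm x ?_ ?_
  · rintro rfl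
    exact h1 hu
  · rintro rfl
    exact h2 hu

theorem Edg.erase {E : Finset (Sym2 Lab)} (hE : C.Edg E) (e : Sym2 Lab) : C.Edg (E.erase e) :=
  fun f hf => hE f (Finset.mem_of_mem_erase hf)

theorem CO_erase {E : Finset (Sym2 Lab)} (hE : C.Edg E) {e : Sym2 Lab} (he : e ∈ E) :
    CO K E hE = CoS e * CO K (E.erase e) (hE.erase e) :=
  (Finset.mul_noncommProd_erase E he _ _).symm

theorem main_out (x : K) (T : Finset (Pt × Pt)) (A : Finset Pt) (E : Finset (Sym2 Lab)) (hE : C.Edg E)
    (p : Pt × Pt) (hp : C.De p) (h1 : p.1 ∉ A) (h2 : C.ed p ∈ E) (hw : C.nb p ∉ A)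
    (hT : ∀ h ∈ T, h.1 ∉ A) (h4 : p ∉ T) :
    (CR x A * EN K true T * CO K E hE : Op Lab K) (dlt K) (st p) = C.Ws x A T p := by
  rw [Ws_out x hp.2 hw, CO_erase hE h2]
  by_cases h5 : C.rv p ∈ T
  · rw [if_pos h5, EN_erase true h5]
    have c1 := En_CR_comm (K := K) (p := C.rv p) x (A := A) true hw
    have c2 := CoS_CR_comm (K := K) x h1 hw
    have c3 : Commute (CoS (C.ed p) : Op Lab K) (EN K true (T.erase (C.rv p))) :=
      CoS_EN_comm true (fun h => h4 (Finset.mem_of_mem_erase h)) (Finset.notMem_erase _ _)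
    have e : (CR x A * (En (Sum.inr true) (hf (C.rv p)) * EN K true (T.erase (C.rv p))) *
        (CoS (C.ed p) * CO K (E.erase (C.ed p)) (hE.erase (C.ed p))) : Op Lab K) =
        En (Sum.inr true) (hf (C.rv p)) * (CoS (C.ed p) *
          (CR x A * EN K true (T.erase (C.rv p)) * CO K (E.erase (C.ed p)) (hE.erase (C.ed p)))) := by
      calc _ = (CR x A * En (Sum.inr true) (hf (C.rv p))) * (EN K true (T.erase (C.rv p)) *
          CoS (C.ed p)) * CO K (E.erase (C.ed p)) (hE.erase (C.ed p)) := by simp only [mul_assoc]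
        _ = (En (Sum.inr true) (hf (C.rv p)) * CR x A) * (CoS (C.ed p) *
          EN K true (T.erase (C.rv p))) * CO K (E.erase (C.ed p)) (hE.erase (C.ed p)) := by
            rw [c1.eq, c3.eq]
        _ = En (Sum.inr true) (hf (C.rv p)) * ((CR x A * CoS (C.ed p)) *
          (EN K true (T.erase (C.rv p)) * CO K (E.erase (C.ed p)) (hE.erase (C.ed p)))) := by
            simp only [mul_assoc]
        _ = _ := by
            rw [← c2.eq]
            simp only [mul_assoc]
    rw [e]
    simp only [Module.End.mul_apply]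
    rw [CoS_ed]
    refine (step_top (rv_ne hp).symm _).trans ?_
    exact (good_CR x A (good_EN true _ (good_CO (hE.erase _) good_dlt))).1
  · rw [if_neg h5]
    have c2 := CoS_CR_comm (K := K) x h1 hw
    have c3 : Commute (CoS (C.ed p) : Op Lab K) (EN K true T) := CoS_EN_comm true h4 h5
    have e : (CR x A * EN K true T *
        (CoS (C.ed p) * CO K (E.erase (C.ed p)) (hE.erase (C.ed p))) : Op Lab K) =
        CoS (C.ed p) * (CR x A * EN K true T * CO K (E.erase (C.ed p)) (hE.erase (C.ed p))) := by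
      calc _ = CR x A * (EN K true T * CoS (C.ed p)) *
            CO K (E.erase (C.ed p)) (hE.erase (C.ed p)) := by simp only [mul_assoc]
        _ = (CR x A * CoS (C.ed p)) * (EN K true T *
            CO K (E.erase (C.ed p)) (hE.erase (C.ed p))) := by
            rw [← c3.eq]
            simp only [mul_assoc]
        _ = _ := by
            rw [← c2.eq]
            simp only [mul_assoc]
    rw [e]
    simp only [Module.End.mul_apply]
    rw [CoS_ed]
    exact Co_st (rv_ne hp).symm _

theorem main (x : K) (T : Finset (Pt × Pt)) (n : ℕ) : ∀ (A : Finset Pt), A.card = n →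
    ∀ (E : Finset (Sym2 Lab)) (hE : C.Edg E) (p : Pt × Pt), C.De p → p.1 ∉ A → C.ed p ∈ E →
    (∀ w ∈ A, ∀ d, C.De (w, d) → C.ed (w, d) ∈ E) → (∀ h ∈ T, h.1 ∉ A) → p ∉ T →
    (CR x A * EN K true T * CO K E hE : Op Lab K) (dlt K) (st p) = C.Ws x A T p := by
  induction n with
  | zero =>
    intro A hA E hE p hp h1 h2 h3 hT h4
    have hw : C.nb p ∉ A := by
      rw [Finset.card_eq_zero.1 hA]
      exact Finset.notMem_empty _
    exact main_out x T A E hE p hp h1 h2 hw hT h4
  | succ n ih =>
    intro A hA E hE p hp h1 h2 h3 hT h4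
    by_cases hw : C.nb p ∈ A
    · have hr : C.rv p ∉ T := fun h => hT _ h hw
      set w := C.nb p with hwd
      have hA' : (A.erase w).card = n := by
        rw [Finset.card_erase_of_mem hw]
        omega
      have hwp : w ≠ p.1 := fun h => h1 (h ▸ hw)
      have hDw : C.De (w, -p.2) := hp.rv'
      have hrv : C.rv p = (w, -p.2) := rfl
      have r1 : rotL (rotL (-p.2)) = rotR p.2 := by
        refine Prod.ext ?_ ?_ <;> simp only [rotL, rotR, Prod.fst_neg, Prod.snd_neg] <;> ring
      have r2 : rotR (rotR (-p.2)) = rotL p.2 := by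
        refine Prod.ext ?_ ?_ <;> simp only [rotL, rotR, Prod.fst_neg, Prod.snd_neg] <;> ring
      have hne : ∀ b : Bool, turn b p.2 ≠ -p.2 := by
        have key : ∀ d ∈ dirs, ∀ b : Bool, turn b d ≠ -d := by decide
        exact key p.2 hp.1.1
      have hrec : ∀ b : Bool, (CR x (A.erase w) * EN K true T *
          CO K (E.erase (C.ed p)) (hE.erase (C.ed p)) : Op Lab K) (dlt K) (st (w, turn b p.2)) =
          C.Ws x (A.erase w) T (w, turn b p.2) := by
        intro b
        refine ih (A.erase w) hA' (E.erase (C.ed p)) (hE.erase _) (w, turn b p.2) (De.turn hp b)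
          (Finset.notMem_erase _ _) ?_ ?_ (fun h hh => fun h' => hT h hh (Finset.mem_of_mem_erase h'))
          (fun h => hT _ h hw)
        · rw [Finset.mem_erase]
          refine ⟨?_, h3 w hw _ (De.turn hp b)⟩
          rw [Ne, ed_eq hp.2, not_or]
          refine ⟨fun h => hwp (congrArg Prod.fst h), fun h => hne b ?_⟩
          exact congrArg Prod.snd h
        · intro u hu d hd
          rw [Finset.mem_erase] at hu ⊢
          refine ⟨?_, h3 u hu.2 d hd⟩
          rw [Ne, ed_eq hp.2, not_or]
          refine ⟨fun h => h1 ?_, fun h => hu.1 (congrArg Prod.fst h)⟩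
          have := congrArg Prod.fst h
          simp only at this
          rw [← this]
          exact hu.2
      have c2 := CoS_CR_comm (K := K) (A := A.erase w) x
        (fun h => h1 (Finset.mem_of_mem_erase h)) (Finset.notMem_erase w A)
      have c3 : Commute (CoS (C.ed p) : Op Lab K) (EN K true T) := CoS_EN_comm true h4 hr
      have e : (CR x A * EN K true T * CO K E hE : Op Lab K) =
          Crv x w * (CoS (C.ed p) * (CR x (A.erase w) * EN K true T *
            CO K (E.erase (C.ed p)) (hE.erase (C.ed p)))) := by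
        rw [CR_erase x hw, CO_erase hE h2]
        calc _ = Crv x w * CR x (A.erase w) * (EN K true T * CoS (C.ed p)) *
            CO K (E.erase (C.ed p)) (hE.erase (C.ed p)) := by simp only [mul_assoc]
          _ = Crv x w * (CR x (A.erase w) * CoS (C.ed p)) * (EN K true T *
            CO K (E.erase (C.ed p)) (hE.erase (C.ed p))) := by
            rw [← c3.eq]
            simp only [mul_assoc]
          _ = _ := by
            rw [← c2.eq]
            simp only [mul_assoc]
      rw [e, Ws_in x hp.2 hw hr]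
      simp only [Module.End.mul_apply]
      rw [Crv_eq x hDw.1, CoS_ed, r1, r2, hrv]
      have q1 : (w, -p.2) ≠ p := fun h => hwp (congrArg Prod.fst h)
      have q2 : (w, rotR p.2) ≠ p := fun h => hwp (congrArg Prod.fst h)
      have q3 : (w, rotL p.2) ≠ p := fun h => hwp (congrArg Prod.fst h)
      have q4 : (w, -p.2) ≠ (w, rotR p.2) := fun h => hne false (congrArg Prod.snd h).symm
      have q5 : (w, -p.2) ≠ (w, rotL p.2) := fun h => hne true (congrArg Prod.snd h).symm
      refine (step_in x q1 q2 q3 q4 q5 _).trans ?_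
      have m1 := hrec true
      have m2 := hrec false
      simp only [Module.End.mul_apply] at m1 m2
      change x * ((CR x (A.erase w)) _ (st (w, turn false p.2)) +
        (CR x (A.erase w)) _ (st (w, turn true p.2))) = _
      rw [m1, m2, add_comm]
      rfl
    · exact main_out x T A E hE p hp h1 h2 hw hT h4

end Nm

end Pool.Agent.NUF.Cyl
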