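import Pool.Agent.NUF.Cyl.Geo
import Pool.Agent.EXL.NetTot0
import Pool.Agent.EXL.NetTot

/-!
# Elimination of the seam of a ring (helper93)
-/

set_option autoImplicit false

namespace Pool.Agent.NUF.Cyl

open Pool.Agent.EXL Pool.Agent.EXL.Net Pat HexObs HexObs.LP

variable {α : Type*} [DecidableEq α] {K : Type*} [CommRing K]

/-- creation of the pair of lines i, j. -/
def UO (i j : α) : Op α K where
  toFun F := U i j F
  map_add' F G := by
    ext p
    simp only [U, Pi.add_apply]
    split_ifs <;> ring
  map_smul' r F := by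
    ext p
    simp only [U, Pi.smul_apply, RingHom.id_apply, smul_eq_mul]
    split_ifs <;> ring

/-- projection to the states with i empty. -/
def PO (i : α) : Op α K where
  toFun F := emp i F
  map_add' F G := by
    ext p
    simp only [emp, Pi.add_apply]
    split_ifs <;> ring
  map_smul' r F := by
    ext p
    simp only [emp, Pi.smul_apply, RingHom.id_apply, smul_eq_mul]
    split_ifs <;> ring

theorem UO_apply (i j : α) (F : Pat α → K) (p : Pat α) : UO i j F p = U i j F p := rfl

theorem PO_apply (i : α) (F : Pat α → K) (p : Pat α) : PO i F p = if p i = i then F p else 0 := rfl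

theorem UO_eq (i j : α) : (UO i j : Op α K) = PO i * PO j * (1 + cupO i j) := by
  ext F p
  simp only [Module.End.mul_apply, PO_apply, UO_apply, U, LinearMap.add_apply, Module.End.one_apply,
    Pi.add_apply, cupO_apply]
  split_ifs <;> simp_all

/-- THE SEAM: a pair z, s is created, s is joined to a, z to n. -/
theorem seam {z s a n : α} (hd : [z, s, a, n].Nodup) :
    (UO z s * Co s a * Co z n : Op α K) = PO z * PO s * Co a n := by
  simp only [List.nodup_cons, List.mem_cons, not_or, List.not_mem_nil, not_false_eq_true,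
    and_true, List.nodup_nil] at hd
  obtain ⟨⟨h1, h2, h3⟩, ⟨h4, h5⟩, h6⟩ := hd
  ext F p
  simp only [Module.End.mul_apply, UO_apply, U, PO_apply]
  by_cases c1 : p z = z
  swap
  · rw [if_neg c1, if_neg c1]
  by_cases c2 : p s = s
  swap
  · rw [if_pos c1, if_pos c1, if_neg c2, if_neg c2]
  rw [if_pos c1, if_pos c1, if_pos c2, if_pos c2]
  by_cases c3 : p a = a
  · have e1 : (cup z s p) a = a := by
      simp only [cup]
      grind
    have e2 : (cup z s p) s ≠ s := by
      simp only [cup]
      grind
    rw [Co_apply, if_pos ⟨c2, c3⟩, Co_apply s a _ (cup z s p), if_neg (fun h => e2 h.1), if_pos (Or.inr (Or.inl e1)),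
      add_zero, Co_apply, Co_apply]
    by_cases c4 : p n = n
    · rw [if_pos ⟨c1, c4⟩, if_pos ⟨c3, c4⟩]
    · rw [if_neg (fun h => c4 h.2), if_pos (Or.inl c1), if_neg (fun h => c4 h.2), if_pos (Or.inl c3)]
  · have e1 : (cup z s p) a ≠ a := by
      simp only [cup]
      grind
    have e2 : (cup z s p) s ≠ s := by
      simp only [cup]
      grind
    have e3 : (cup z s p) s ≠ a := by
      simp only [cup]
      grind
    have i1 := p.inv a
    have i2 := p.inv n
    have i3 := p.inv s
    have i4 := p.inv z
    have f1 : (cut s a (cup z s p)) z ≠ z := by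
      simp only [cut, cup]
      grind
    rw [Co_apply, if_neg (fun h => c3 h.2), if_pos (Or.inl c2), zero_add, Co_apply s a _ (cup z s p),
      if_neg (fun h => e1 h.2), if_neg (by simp [e1, e2, e3]), Co_apply, Co_apply]
    by_cases c4 : p n = n
    · have f2 : (cut s a (cup z s p)) n = n := by
        simp only [cut, cup]
        grind
      rw [if_neg (fun h => f1 h.1), if_pos (Or.inr (Or.inl f2)), if_neg (fun h => c3 h.1),
        if_pos (Or.inr (Or.inl c4))]
    · have f2 : (cut s a (cup z s p)) n ≠ n := by
        simp only [cut, cup]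
        grind
      by_cases c5 : p a = n
      · have f3 : (cut s a (cup z s p)) z = n := by
          simp only [cut, cup]
          grind
        rw [if_neg (fun h => f1 h.1), if_pos (Or.inr (Or.inr f3)), if_neg (fun h => c3 h.1),
          if_pos (Or.inr (Or.inr c5))]
      · have f3 : (cut s a (cup z s p)) z ≠ n := by
          simp only [cut, cup]
          grind
        rw [if_neg (fun h => f1 h.1), if_neg (by simp [f1, f2, f3]), if_neg (fun h => c3 h.1),
          if_neg (by simp [c3, c4, c5])]
        congr 1
        ext x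
        have i5 := p.inv x
        simp only [cut, cup]
        grind

/-! ### commutation -/

theorem PO_cupO_comm {a i j : α} (h1 : a ≠ i) (h2 : a ≠ j) : Commute (PO a : Op α K) (cupO i j) := by
  ext F p
  have e : (cup i j p) a = a ↔ p a = a := by
    simp only [cup]
    grind
  simp only [Module.End.mul_apply, PO_apply, cupO_apply, e]
  split_ifs <;> rfl

theorem PO_Co_comm {a i j : α} (h1 : a ≠ i) (h2 : a ≠ j) : Commute (PO a : Op α K) (Co i j) := by
  ext F p
  have i1 := p.inv i
  have i2 := p.inv j
  have i3 := p.inv a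
  have e : (cut i j p) a = a ↔ p a = a := by
    simp only [cut]
    grind
  simp only [Module.End.mul_apply, PO_apply, Co_apply, e]
  split_ifs <;> rfl

theorem PO_comm (a b : α) : Commute (PO a : Op α K) (PO b) := by
  ext F p
  simp only [Module.End.mul_apply, PO_apply]
  split_ifs <;> rfl

theorem PO_Crv_comm (x : K) {h : Pt × Pt} {v : Pt} (h1 : h.1 ≠ v) :
    Commute (PO (hf h) : Op Lab K) (Crv x v) := by
  have e : ∀ d : Pt, (hf h : Lab) ≠ hf (v, d) := by
    intro d hd
    rw [Sum.inl.injEq] at hd
    exact h1 (congrArg Prod.fst hd)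
  unfold Crv Cr
  exact (Commute.one_right _).add_right ((((PO_cupO_comm (e _) (e _)).add_right
    (PO_cupO_comm (e _) (e _))).add_right (PO_cupO_comm (e _) (e _))).smul_right x)

theorem cupO_Crv_comm (x : K) {h k : Pt × Pt} {v : Pt} (h1 : h.1 ≠ v) (h2 : k.1 ≠ v) :
    Commute (cupO (hf h) (hf k) : Op Lab K) (Crv x v) := by
  have e : ∀ d : Pt, (hf (v, d) : Lab) ≠ hf h := by
    intro d hd
    rw [Sum.inl.injEq] at hd
    exact h1 (congrArg Prod.fst hd).symm
  have e' : ∀ d : Pt, (hf (v, d) : Lab) ≠ hf k := by
    intro d hd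
    rw [Sum.inl.injEq] at hd
    exact h2 (congrArg Prod.fst hd).symm
  unfold Crv
  exact (Cr_cupO_comm (e _) (e' _) (e _) (e' _) (e _) (e' _)).symm

theorem UO_Crv_comm (x : K) {h k : Pt × Pt} {v : Pt} (h1 : h.1 ≠ v) (h2 : k.1 ≠ v) :
    Commute (UO (hf h) (hf k) : Op Lab K) (Crv x v) := by
  rw [UO_eq]
  exact ((PO_Crv_comm x h1).mul_left (PO_Crv_comm x h2)).mul_left
    ((Commute.one_left _).add_left (cupO_Crv_comm x h1 h2))

/-- projection to the states that are empty at all labels of the list. -/
def PL (K : Type*) [CommRing K] (l : List α) : Op α K := (l.map PO).prod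

theorem PL_nil : PL K ([] : List α) = 1 := rfl

theorem PL_cons (a : α) (l : List α) : PL K (a :: l) = PO a * PL K l := by
  unfold PL
  rw [List.map_cons, List.prod_cons]

theorem PL_apply (l : List α) (F : Pat α → K) (p : Pat α) (h : ∀ a ∈ l, p a = a) : PL K l F p = F p := by
  induction l with
  | nil => rfl
  | cons a l ih =>
    rw [PL_cons, Module.End.mul_apply, PO_apply, if_pos (h a (by simp))]
    exact ih (fun b hb => h b (by simp [hb]))

theorem PL_comm {l : List α} {X : Op α K} (h : ∀ a ∈ l, Commute (PO a) X) : Commute (PL K l) X := by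
  induction l with
  | nil => exact Commute.one_left _
  | cons a l ih =>
    rw [PL_cons]
    exact (h a (by simp)).mul_left (ih (fun b hb => h b (by simp [hb])))

end Pool.Agent.NUF.Cyl
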