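import Pool.Agent.NUF.Cyl.Ring

/-!
# The network of m rings and the words on the cylinder (helper93)
-/

set_option autoImplicit false

namespace Pool.Agent.NUF.Cyl

open Pool.Agent.EXL Pool.Agent.EXL.Net Pat HexObs HexObs.LP

variable {K : Type*} [CommRing K]

/-- the network of m rings. -/
noncomputable def totR (x : K) (N : ℕ) : ℕ → Op Lab K
  | 0 => 1
  | m + 1 => colR x N m * totR x N m

def VT (N : ℕ) : ℕ → List Pt
  | 0 => []
  | m + 1 => VLc N m ++ VT N m

def HT (N : ℕ) : ℕ → List (Pt × Pt)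
  | 0 => []
  | m + 1 => HLc N m ++ HT N m

def zT : ℕ → List Lab
  | 0 => []
  | m + 1 => lX 1 :: lN m (-1) :: zT m

theorem mem_VT {N m : ℕ} {v : Pt} : v ∈ VT N m ↔
    ∃ k : ℕ, k < m ∧ ∃ i : ℕ, i < N ∧ (v = _root_.EXL.A k i ∨ v = _root_.EXL.B k i) := by
  induction m with
  | zero => simp [VT]
  | succ m ih =>
    show v ∈ VLc N m ++ VT N m ↔ _
    rw [List.mem_append, ih, mem_VLc]
    constructor
    · rintro (⟨i, hi, h⟩ | ⟨k, hk, h⟩)
      · exact ⟨m, by omega, i, hi, h⟩
      · exact ⟨k, by omega, h⟩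
    · rintro ⟨k, hk, h⟩
      by_cases c : k = m
      · subst c
        exact Or.inl h
      · exact Or.inr ⟨k, by omega, h⟩

theorem mem_HT {N m : ℕ} {h : Pt × Pt} : h ∈ HT N m ↔
    ∃ k : ℕ, k < m ∧ ∃ i : ℕ, i < N ∧ (h = (_root_.EXL.A k i, (0, -1)) ∨
      h = (_root_.EXL.A ((k : ℤ) + 1) i, (-1, 1)) ∨ h = (_root_.EXL.A k i, (1, 0))) := by
  induction m with
  | zero => simp [HT]
  | succ m ih =>
    show h ∈ HLc N m ++ HT N m ↔ _
    rw [List.mem_append, ih, mem_HLc]
    constructor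
    · rintro (⟨i, hi, h⟩ | ⟨k, hk, h⟩)
      · exact ⟨m, by omega, i, hi, h⟩
      · exact ⟨k, by omega, h⟩
    · rintro ⟨k, hk, h⟩
      by_cases c : k = m
      · subst c
        exact Or.inl h
      · exact Or.inr ⟨k, by omega, h⟩

theorem mem_zT {m : ℕ} {a : Lab} (h : a ∈ zT m) : a = lX 1 ∨ ∃ k : ℤ, a = lN k (-1) := by
  induction m with
  | zero => simp [zT] at h
  | succ m ih =>
    have h' : a = lX 1 ∨ a = lN m (-1) ∨ a ∈ zT m := by simpa [zT] using h
    rcases h' with h' | h' | h'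
    · exact Or.inl h'
    · exact Or.inr ⟨_, h'⟩
    · exact ih h'

/-- the ends of the edges of a column. -/
theorem HLc_ends {N : ℕ} (hN : 1 ≤ N) {k : ℤ} {h : Pt × Pt} (hh : h ∈ HLc N k) :
    (∃ k' i : ℤ, (k' = k ∨ k' = k + 1) ∧ 0 ≤ i ∧ i < N ∧ h.1 = _root_.EXL.A k' i) ∧
    ∃ i : ℤ, 0 ≤ i ∧ i < N ∧ (Cy N hN).nb h = _root_.EXL.B k i := by
  rw [mem_HLc] at hh
  obtain ⟨i, hi, rfl | rfl | rfl⟩ := hh
  · refine ⟨⟨k, i, Or.inl rfl, by positivity, by exact_mod_cast hi, rfl⟩, ?_⟩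
    rcases Nat.eq_zero_or_pos i with h0 | h0
    · subst h0
      exact ⟨(N : ℤ) - 1, by omega, by omega, nb_A_S0 hN k⟩
    · exact ⟨(i : ℤ) - 1, by omega, by omega, nb_A_S hN k (by omega) (by omega)⟩
  · refine ⟨⟨k + 1, i, Or.inr rfl, by positivity, by exact_mod_cast hi, rfl⟩, i, by positivity,
      by exact_mod_cast hi, ?_⟩
    rw [nb_A_W hN _ (by positivity) (by exact_mod_cast hi), add_sub_cancel_right]
  · exact ⟨⟨k, i, Or.inl rfl, by positivity, by exact_mod_cast hi, rfl⟩, i, by positivity,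
      by exact_mod_cast hi, nb_A_M hN k (by positivity) (by exact_mod_cast hi)⟩

theorem PO_CoS_comm {N : ℕ} (hN : 1 ≤ N) {k : ℤ} {h : Pt × Pt} (hh : h ∈ HLc N k) {a : Lab}
    (ha : a = lX 1 ∨ ∃ k : ℤ, a = lN k (-1)) :
    Commute (PO a : Op Lab K) (CoS ((Cy N hN).ed h)) := by
  obtain ⟨⟨k', i, -, h1, h2, h3⟩, j, h4, h5, h6⟩ := HLc_ends hN hh
  obtain ⟨u, d⟩ := h
  simp only at h3
  subst h3
  show Commute (PO a : Op Lab K) (Co (hf (_root_.EXL.A k' i, d)) (hf ((Cy N hN).nb (_root_.EXL.A k' i, d), -d)))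
  rw [h6]
  rcases ha with rfl | ⟨k'', rfl⟩
  · refine PO_Co_comm ?_ ?_
    · rw [lX_hf, Ne, Sum.inl.injEq]
      exact fun e => A_ne_zero _ _ (congrArg Prod.fst e)
    · rw [lX_hf, Ne, Sum.inl.injEq]
      exact fun e => B_ne_zero _ h4 (congrArg Prod.fst e)
  · refine PO_Co_comm ?_ ?_
    · rw [lN_hf, Ne, Sum.inl.injEq]
      exact fun e => A_ne_B _ _ _ _ (congrArg Prod.fst e).symm
    · rw [lN_hf, Ne, Sum.inl.injEq]
      intro e
      have := (B_inj.1 (congrArg Prod.fst e)).2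
      omega

theorem PO_V_comm (x : K) {N : ℕ} {k : ℤ} {v : Pt} (hv : v ∈ VLc N k) {a : Lab}
    (ha : a = lX 1 ∨ ∃ k : ℤ, a = lN k (-1)) : Commute (PO a : Op Lab K) (Crv x v) := by
  rw [mem_VLc] at hv
  obtain ⟨i, hi, h⟩ := hv
  rcases ha with rfl | ⟨k'', rfl⟩
  · rcases h with rfl | rfl
    · exact PO_Crv_comm x (A_ne_zero _ _)
    · exact PO_Crv_comm x (B_ne_zero _ (by positivity))
  · rcases h with rfl | rfl
    · exact PO_Crv_comm x (fun e => A_ne_B _ _ _ _ e.symm)
    · refine PO_Crv_comm x ?_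
      simp only [ne_eq, B_inj]
      omega

/-- the sorted form of the network of m rings. -/
theorem totR_eq (x : K) {N : ℕ} (hN : 1 ≤ N) (m : ℕ) : totR x N m =
    PL K (zT m) * ((VT N m).map (Crv x)).prod *
      ((HT N m).map (fun h => (CoS ((Cy N hN).ed h) : Op Lab K))).prod := by
  induction m with
  | zero => simp [totR, zT, VT, HT, PL_nil]
  | succ m ih =>
    show colR x N m * totR x N m = PL K (lX 1 :: lN m (-1) :: zT m) *
      ((VLc N m ++ VT N m).map (Crv x)).prod *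
      ((HLc N m ++ HT N m).map (fun h => (CoS ((Cy N hN).ed h) : Op Lab K))).prod
    rw [ih, colR_eq x hN, PL_cons, PL_cons, List.map_append, List.prod_append, List.map_append, List.prod_append]
    set V := ((VLc N m).map (Crv x)).prod with hV
    set H := ((HLc N m).map (fun h => (CoS ((Cy N hN).ed h) : Op Lab K))).prod with hH
    set VV := ((VT N m).map (Crv x)).prod with hVV
    set HH := ((HT N m).map (fun h => (CoS ((Cy N hN).ed h) : Op Lab K))).prod with hHH
    set P := PL K (zT m) with hP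
    set z : Op Lab K := PO (lX 1) with hz
    set s : Op Lab K := PO (lN m (-1)) with hs
    have c1 : Commute P V := PL_comm (fun a ha => commute_list_map (fun v hv => PO_V_comm x hv (mem_zT ha)))
    have c2 : Commute P H := PL_comm (fun a ha => commute_list_map (fun h hh => PO_CoS_comm hN hh (mem_zT ha)))
    have c3 : Commute z V := commute_list_map (fun v hv => PO_V_comm x hv (Or.inl rfl))
    have c4 : Commute s V := commute_list_map (fun v hv => PO_V_comm x hv (Or.inr ⟨_, rfl⟩))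
    have c5 : Commute H VV := by
      apply Commute.symm
      rw [hH]
      apply commute_list_map
      intro h hh
      apply Commute.symm
      rw [hVV]
      apply commute_list_map
      intro v hv
      obtain ⟨⟨k', i, hk, h1, h2, h3⟩, j, h4, h5, h6⟩ := HLc_ends hN hh
      rw [mem_VT] at hv
      obtain ⟨k'', hk'', i'', hi'', hv⟩ := hv
      apply Nm.CoS_Crv_comm x
      · rw [h3]
        rcases hv with rfl | rfl
        · rw [Ne, A_inj]
          omega
        · exact A_ne_B _ _ _ _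
      · rw [h6]
        rcases hv with rfl | rfl
        · exact fun e => A_ne_B _ _ _ _ e.symm
        · rw [Ne, B_inj]
          omega
    calc _ = V * ((z * s) * (H * P) * VV * HH) := by simp only [mul_assoc]
      _ = V * ((z * s) * P) * (H * VV) * HH := by
        rw [← c2.eq]
        simp only [mul_assoc]
      _ = _ := by
        rw [c5.eq, ← (((c3.mul_left c4).mul_left c1).eq)]
        simp only [mul_assoc]

/-! ### evaluation -/

theorem totR_lft (x : K) {N : ℕ} (G : Pat Lab → K) (m : ℕ) : ∀ q : Pat (Site N),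
    totR x N m G (L N ((m : ℤ) - 1) 0 q) =
      ((ringF (fun _ => hexW x))^[m] (fun q => G (L N (-1) 0 q))) q := by
  induction m with
  | zero =>
    intro q
    show G (L N (((0 : ℕ) : ℤ) - 1) 0 q) = _
    rfl
  | succ m ih =>
    intro q
    rw [Function.iterate_succ_apply']
    have e : ((m + 1 : ℕ) : ℤ) - 1 = m := by push_cast; ring
    rw [e]
    show (colR x N m * totR x N m) G _ = _
    rw [Module.End.mul_apply, colR_lft x m _ q]
    congr 1
    funext q'
    exact ih q'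

theorem L_empty_pat (N : ℕ) (k : ℤ) : L N k 0 Pat.empty = Pat.empty := by
  ext y : 2
  unfold L
  by_cases hx : ∃ b, kap N k 0 b = y
  · obtain ⟨b, rfl⟩ := hx
    rw [lft_apply]
    rfl
  · rw [lft_of_notMem _ _ _ hx]
    rfl

/-- the half edges at the left end. -/
def HLeft (N : ℕ) : List (Pt × Pt) := (List.range N).map (fun i : ℕ => (_root_.EXL.A 0 i, (-1, 1)))

/-- the outer half edge at the left end in row r. -/
def pL (r : ℤ) : Pt × Pt := (_root_.EXL.B (-1) r, (1, -1))

theorem left_list {N : ℕ} (hN : 1 ≤ N) : leftOp K N =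
    ((HLeft N).map (fun h => (CoS ((Cy N hN).ed h) : Op Lab K))).prod := by
  unfold leftOp HLeft
  rw [Tot.fin_range N (fun i : ℕ => (Co (lW 0 (i : ℤ)) (lE (-1) (i : ℤ)) : Op Lab K)), List.map_map]
  congr 1
  refine List.map_congr_left fun i hi => ?_
  rw [List.mem_range] at hi
  show _ = (CoS s(hf (_root_.EXL.A 0 i, (-1, 1)), hf ((Cy N hN).nb (_root_.EXL.A 0 i, (-1, 1)), -(-1, 1))) :
    Op Lab K)
  rw [nb_A_W hN _ (by positivity) (by exact_mod_cast hi)]
  rfl

/-- all contractions. -/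
def HAll (N m : ℕ) : List (Pt × Pt) := HT N m ++ HLeft N

theorem mem_HAll {N m : ℕ} {h : Pt × Pt} : h ∈ HAll N m ↔
    (∃ k i : ℕ, k < m ∧ i < N ∧ (h = (_root_.EXL.A k i, (0, -1)) ∨ h = (_root_.EXL.A k i, (1, 0)))) ∨
    ∃ k i : ℕ, k ≤ m ∧ i < N ∧ h = (_root_.EXL.A k i, (-1, 1)) := by
  unfold HAll HLeft
  rw [List.mem_append, mem_HT, List.mem_map]
  constructor
  · rintro (⟨k, hk, i, hi, rfl | rfl | rfl⟩ | ⟨i, hi, rfl⟩)
    · exact Or.inl ⟨k, i, hk, hi, Or.inl rfl⟩
    · exact Or.inr ⟨k + 1, i, by omega, hi, by push_cast; rfl⟩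
    · exact Or.inl ⟨k, i, hk, hi, Or.inr rfl⟩
    · exact Or.inr ⟨0, i, by omega, List.mem_range.1 hi, by push_cast; rfl⟩
  · rintro (⟨k, i, hk, hi, rfl | rfl⟩ | ⟨k, i, hk, hi, rfl⟩)
    · exact Or.inl ⟨k, hk, i, hi, Or.inl rfl⟩
    · exact Or.inl ⟨k, hk, i, hi, Or.inr (Or.inr rfl)⟩
    · rcases Nat.eq_zero_or_pos k with h0 | h0
      · subst h0
        exact Or.inr ⟨i, List.mem_range.2 hi, by push_cast; rfl⟩
      · refine Or.inl ⟨k - 1, by omega, i, hi, Or.inr (Or.inl ?_)⟩
        have : ((k - 1 : ℕ) : ℤ) + 1 = k := by omega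
        rw [this]

theorem nodup_VT (N m : ℕ) : (VT N m).Nodup := by
  induction m with
  | zero => exact List.nodup_nil
  | succ m ih =>
    show (VLc N m ++ VT N m).Nodup
    rw [List.nodup_append]
    refine ⟨?_, ih, ?_⟩
    · unfold VLc
      rw [List.nodup_flatMap]
      refine ⟨fun i _ => ?_, ?_⟩
      · simp only [List.nodup_cons, List.mem_singleton, List.not_mem_nil, not_false_eq_true, List.nodup_nil, and_true]
        exact A_ne_B _ _ _ _
      · refine List.pairwise_lt_range.imp fun {a b} hab => ?_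
        intro v h1 h2
        simp only [List.mem_cons, List.not_mem_nil, or_false] at h1 h2
        rcases h1 with rfl | rfl <;> rcases h2 with h2 | h2
        · rw [A_inj] at h2
          omega
        · exact A_ne_B _ _ _ _ h2
        · exact A_ne_B _ _ _ _ h2.symm
        · rw [B_inj] at h2
          omega
    · intro v h1 w h2 h3
      subst h3
      rw [mem_VLc] at h1
      rw [mem_VT] at h2
      obtain ⟨i, hi, h1⟩ := h1
      obtain ⟨k, hk, i', hi', h2⟩ := h2
      rcases h1 with rfl | rfl <;> rcases h2 with h2 | h2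
      · rw [A_inj] at h2
        omega
      · exact A_ne_B _ _ _ _ h2
      · exact A_ne_B _ _ _ _ h2.symm
      · rw [B_inj] at h2
        omega

theorem VT_par (N m : ℕ) : (VT N m).toFinset = _root_.EXL.par N m := by
  ext v
  rw [List.mem_toFinset, mem_VT, _root_.EXL.mem_par]
  constructor
  · rintro ⟨k, hk, i, hi, h⟩
    exact ⟨k, i, ⟨by positivity, by exact_mod_cast hk⟩, ⟨by positivity, by exact_mod_cast hi⟩, h⟩
  · rintro ⟨k, i, ⟨h1, h2⟩, ⟨h3, h4⟩, h⟩
    obtain ⟨k, rfl⟩ := Int.eq_ofNat_of_zero_le h1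
    obtain ⟨i, rfl⟩ := Int.eq_ofNat_of_zero_le h3
    exact ⟨k, by exact_mod_cast h2, i, by exact_mod_cast h4, h⟩

end Pool.Agent.NUF.Cyl
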